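import Mathlib

set_option autoImplicit false
set_option linter.unusedVariables false

/-!
# Sublevel sets of `A f g + B g + C f + D`
-/

namespace Pool.Agent.Helper433_LM

open Set Filter Topology MeasureTheory

/-- Either `E` is covered by `n` intervals of length `2σ`, or it contains `n+1` points with gaps at
least `σ`. -/
theorem cover_or_points {σ : ℝ} (hσ : 0 < σ) (n : ℕ) : ∀ (E : Set ℝ), BddBelow E →
    (∃ c : Fin n → ℝ, E ⊆ ⋃ i, Icc (c i) (c i + 2 * σ)) ∨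
    ∃ x : ℕ → ℝ, (∀ i ≤ n, x i ∈ E) ∧ ∀ i < n, x i + σ ≤ x (i + 1) := by
  induction n with
  | zero =>
    intro E hE
    rcases E.eq_empty_or_nonempty with h | ⟨x, hx⟩
    · left
      exact ⟨fun i => i.elim0, by rw [h]; exact empty_subset _⟩
    · right
      exact ⟨fun _ => x, fun _ _ => hx, fun i hi => absurd hi (Nat.not_lt_zero i)⟩
  | succ n ih =>
    intro E hE
    rcases E.eq_empty_or_nonempty with h | hne
    · left
      exact ⟨fun i => 0, by rw [h]; exact empty_subset _⟩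
    · rcases ih (E ∩ Ioi (sInf E + 2 * σ)) (hE.mono inter_subset_left) with ⟨c, hc⟩ | ⟨x, hx, hg⟩
      · left
        refine ⟨Fin.cons (sInf E) c, ?_⟩
        intro e he
        rw [mem_iUnion]
        by_cases h : e ≤ sInf E + 2 * σ
        · exact ⟨0, by simpa using ⟨csInf_le hE he, h⟩⟩
        · push Not at h
          obtain ⟨i, hi⟩ := mem_iUnion.1 (hc ⟨he, h⟩)
          exact ⟨i.succ, by simpa using hi⟩
      · right
        obtain ⟨e, he, hea⟩ := exists_lt_of_csInf_lt hne (show sInf E < sInf E + σ by linarith)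
        refine ⟨fun i => Nat.casesOn i e x, ?_, ?_⟩
        · intro i hi
          rcases i with _ | i
          · exact he
          · exact (hx i (by omega)).1
        · intro i hi
          rcases i with _ | i
          · have := (hx 0 (by omega)).2
            simp only [mem_Ioi] at this
            show e + σ ≤ x 0
            linarith
          · exact hg i (by omega)

/-- Mean value theorem in the form used. -/
theorem mvt {φ φ' : ℝ → ℝ} {p q s t e σ : ℝ} (hσ : 0 < σ)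
    (hφ : ∀ x ∈ Icc p q, HasDerivAt φ (φ' x) x) (hs : s ∈ Icc p q) (ht : t ∈ Icc p q)
    (hst : s + σ ≤ t) (h1 : |φ s| ≤ e) (h2 : |φ t| ≤ e) :
    ∃ ξ ∈ Ioo s t, |φ' ξ| ≤ 2 * e / σ := by
  have hlt : s < t := by linarith
  have hsub : Icc s t ⊆ Icc p q := Icc_subset_Icc hs.1 ht.2
  obtain ⟨ξ, hξ, h⟩ := exists_hasDerivAt_eq_slope φ φ' hlt
    (fun x hx => (hφ x (hsub hx)).continuousAt.continuousWithinAt)
    (fun x hx => hφ x (hsub (Ioo_subset_Icc_self hx)))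
  refine ⟨ξ, hξ, ?_⟩
  rw [h, abs_div, abs_of_pos (show 0 < t - s by linarith)]
  have h3 : |φ t - φ s| ≤ 2 * e := by
    have := abs_sub (φ t) (φ s)
    linarith
  have he : 0 ≤ e := (abs_nonneg _).trans h1
  exact div_le_div₀ (by linarith) h3 hσ (by linarith)

/-- The local structure needed for the estimate. -/
structure ND (f g : ℝ → ℝ) (p q c C : ℝ) : Prop where
  cpos : 0 < c
  Cone : 1 ≤ C
  ex : ∃ f' a a' b b' : ℝ → ℝ, ∀ x ∈ Icc p q, HasDerivAt f (f' x) x ∧ HasDerivAt g (a x * f' x) x ∧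
    HasDerivAt a (a' x) x ∧ HasDerivAt b (b' x) x ∧ 2 * f' x * a x + f x * a' x = b x * a' x ∧
    c ≤ |f' x| ∧ c ≤ |a' x| ∧ c ≤ |b' x| ∧ |f x| ≤ C ∧ |g x| ≤ C ∧ |a x| ≤ C ∧ |b x| ≤ C

theorem coef_bound {f g : ℝ → ℝ} {p q c C : ℝ} (h : ND f g p q c C) : ∃ K > 0,
    ∀ A B D E ε σ : ℝ, 0 < σ → σ ≤ 1 → 0 < ε → ∀ x : ℕ → ℝ,
      (∀ i ≤ 7, x i ∈ Icc p q ∧ |A * (f (x i) * g (x i)) + B * g (x i) + D * f (x i) + E| ≤ ε) →
      (∀ i < 7, x i + σ ≤ x (i + 1)) →
      |A| ≤ K * (ε / σ ^ 3) ∧ |B| ≤ K * (ε / σ ^ 3) ∧ |D| ≤ K * (ε / σ ^ 3) ∧ |E| ≤ K * (ε / σ ^ 3) := by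
  have hc := h.cpos
  have hC := h.Cone
  obtain ⟨f', a, a', b, b', hx⟩ := h.ex
  obtain ⟨kA, hkA⟩ : ∃ kA, kA = 8 / c ^ 3 := ⟨_, rfl⟩
  obtain ⟨kB, hkB⟩ : ∃ kB, kB = 4 / c ^ 2 + kA * C := ⟨_, rfl⟩
  obtain ⟨kD, hkD⟩ : ∃ kD, kD = 2 / c + kA * (C + C * C) + kB * C := ⟨_, rfl⟩
  obtain ⟨kE, hkE⟩ : ∃ kE, kE = 1 + kA * (C * C) + kB * C + kD * C := ⟨_, rfl⟩
  have pA : 0 ≤ kA := by rw [hkA]; positivity
  have pB : 0 ≤ kB := by rw [hkB]; positivity
  have pD : 0 ≤ kD := by rw [hkD]; positivity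
  have pE : 1 ≤ kE := by
    rw [hkE]
    have : 0 ≤ kA * (C * C) + kB * C + kD * C := by positivity
    linarith
  refine ⟨kA + kB + kD + kE, by linarith, ?_⟩
  intro A B D E ε σ hσ hσ1 hε x hxE hgap
  obtain ⟨e, he⟩ : ∃ e, e = ε / σ ^ 3 := ⟨_, rfl⟩
  rw [← he]
  have he0 : 0 < e := by rw [he]; positivity
  have e3 : ε = e * σ ^ 3 := by rw [he]; field_simp
  have s2 : σ ^ 2 ≤ 1 := pow_le_one₀ hσ.le hσ1
  have s3 : σ ^ 3 ≤ 1 := pow_le_one₀ hσ.le hσ1
  -- first step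
  have d0 : ∀ y ∈ Icc p q, HasDerivAt (fun y => A * (f y * g y) + B * g y + D * f y + E)
      (f' y * (A * (g y + f y * a y) + B * a y + D)) y := by
    intro y hy
    obtain ⟨h1, h2, -⟩ := hx y hy
    refine ((((h1.mul h2).const_mul A).add (h2.const_mul B)).add (h1.const_mul D)).add_const E
      |>.congr_deriv ?_
    ring
  have d1 : ∀ y ∈ Icc p q, HasDerivAt (fun y => A * (g y + f y * a y) + B * a y + D)
      (a' y * (A * b y + B)) y := by
    intro y hy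
    obtain ⟨h1, h2, h3, h4, h5, -⟩ := hx y hy
    refine (((h2.add (h1.mul h3)).const_mul A).add (h3.const_mul B)).add_const D
      |>.congr_deriv ?_
    linear_combination A * h5
  have d2 : ∀ y ∈ Icc p q, HasDerivAt (fun y => A * b y + B) (A * b' y) y := by
    intro y hy
    obtain ⟨h1, h2, h3, h4, -⟩ := hx y hy
    exact (h4.const_mul A).add_const B
  have P1 : ∀ i < 4, ∃ ξ ∈ Ioo (x (2 * i)) (x (2 * i + 1)),
      |A * (g ξ + f ξ * a ξ) + B * a ξ + D| ≤ 2 / c * (e * σ ^ 2) := by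
    intro i hi
    obtain ⟨ξ, hξ, h⟩ := mvt hσ d0 (hxE (2 * i) (by omega)).1 (hxE (2 * i + 1) (by omega)).1
      (hgap _ (by omega)) (hxE (2 * i) (by omega)).2 (hxE (2 * i + 1) (by omega)).2
    refine ⟨ξ, hξ, ?_⟩
    have hξ' : ξ ∈ Icc p q := ⟨(hxE (2 * i) (by omega)).1.1.trans hξ.1.le,
      hξ.2.le.trans (hxE (2 * i + 1) (by omega)).1.2⟩
    have hcf := (hx ξ hξ').2.2.2.2.2.1
    rw [abs_mul] at h
    have h4 : c * |A * (g ξ + f ξ * a ξ) + B * a ξ + D| ≤ 2 * ε / σ :=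
      (mul_le_mul_of_nonneg_right hcf (abs_nonneg _)).trans h
    rw [e3] at h4
    have h5 : 2 * (e * σ ^ 3) / σ = 2 * (e * σ ^ 2) := by field_simp
    rw [h5] at h4
    rw [div_mul_eq_mul_div, le_div_iff₀ hc]
    linarith
  choose! ξ hξ hξb using P1
  have hξI : ∀ i < 4, ξ i ∈ Icc p q := fun i hi =>
    ⟨(hxE (2 * i) (by omega)).1.1.trans (hξ i hi).1.le,
      (hξ i hi).2.le.trans (hxE (2 * i + 1) (by omega)).1.2⟩
  have P2 : ∀ i < 2, ∃ η ∈ Ioo (ξ (2 * i)) (ξ (2 * i + 1)),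
      |A * b η + B| ≤ 4 / c ^ 2 * (e * σ) := by
    intro i hi
    have hg : ξ (2 * i) + σ ≤ ξ (2 * i + 1) := by
      have h1 := (hξ (2 * i) (by omega)).2
      have h2 := (hξ (2 * i + 1) (by omega)).1
      have h3 := hgap (2 * (2 * i) + 1) (by omega)
      have h4 : 2 * (2 * i) + 1 + 1 = 2 * (2 * i + 1) := by ring
      rw [h4] at h3
      linarith
    obtain ⟨η, hη, h⟩ := mvt hσ d1 (hξI (2 * i) (by omega)) (hξI (2 * i + 1) (by omega)) hg
      (hξb (2 * i) (by omega)) (hξb (2 * i + 1) (by omega))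
    refine ⟨η, hη, ?_⟩
    have hη' : η ∈ Icc p q := ⟨(hξI (2 * i) (by omega)).1.trans hη.1.le,
      hη.2.le.trans (hξI (2 * i + 1) (by omega)).2⟩
    have hcf := (hx η hη').2.2.2.2.2.2.1
    rw [abs_mul] at h
    have h4 : c * |A * b η + B| ≤ 2 * (2 / c * (e * σ ^ 2)) / σ :=
      (mul_le_mul_of_nonneg_right hcf (abs_nonneg _)).trans h
    have h5 : 2 * (2 / c * (e * σ ^ 2)) / σ = 4 / c * (e * σ) := by field_simp; ring
    rw [h5] at h4
    have h6 : 4 / c ^ 2 * (e * σ) = 4 / c * (e * σ) / c := by field_simp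
    rw [h6, le_div_iff₀ hc]
    linarith
  choose! η hη hηb using P2
  have hηI : ∀ i < 2, η i ∈ Icc p q := fun i hi =>
    ⟨(hξI (2 * i) (by omega)).1.trans (hη i hi).1.le,
      (hη i hi).2.le.trans (hξI (2 * i + 1) (by omega)).2⟩
  have P3 : |A| ≤ kA * e := by
    have hg : η 0 + σ ≤ η 1 := by
      have h1 := (hη 0 (by omega)).2
      have h2 := (hη 1 (by omega)).1
      have h3 := (hξ 1 (by omega)).2
      have h4 := (hξ 2 (by omega)).1
      have h5 := hgap 3 (by omega)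
      norm_num at h1 h2 h3 h4 h5
      linarith
    obtain ⟨θ, hθ, h⟩ := mvt hσ d2 (hηI 0 (by omega)) (hηI 1 (by omega)) hg
      (hηb 0 (by omega)) (hηb 1 (by omega))
    have hθ' : θ ∈ Icc p q := ⟨(hηI 0 (by omega)).1.trans hθ.1.le,
      hθ.2.le.trans (hηI 1 (by omega)).2⟩
    have hcf := (hx θ hθ').2.2.2.2.2.2.2.1
    rw [abs_mul] at h
    have h4 : |A| * c ≤ 2 * (4 / c ^ 2 * (e * σ)) / σ :=
      (mul_le_mul_of_nonneg_left hcf (abs_nonneg _)).trans h
    have h5 : 2 * (4 / c ^ 2 * (e * σ)) / σ = 8 / c ^ 2 * e := by field_simp; ring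
    rw [h5] at h4
    have h6 : kA * e = 8 / c ^ 2 * e / c := by rw [hkA]; field_simp
    rw [h6, le_div_iff₀ hc]
    exact h4
  have P4 : |B| ≤ kB * e := by
    have h0 := hx (η 0) (hηI 0 (by omega))
    have hb := h0.2.2.2.2.2.2.2.2.2.2.2
    have h1 := hηb 0 (by omega)
    have h2 : |B| ≤ |A * b (η 0) + B| + |A| * |b (η 0)| := by
      rw [← abs_mul]
      have := abs_sub (A * b (η 0) + B) (A * b (η 0))
      rwa [add_sub_cancel_left] at this
    have h3 : |A| * |b (η 0)| ≤ kA * e * C := mul_le_mul P3 hb (abs_nonneg _) (by positivity)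
    have h4 : 4 / c ^ 2 * (e * σ) ≤ 4 / c ^ 2 * e := by
      apply mul_le_mul_of_nonneg_left _ (by positivity)
      nlinarith
    rw [hkB]
    linarith
  have P5 : |D| ≤ kD * e := by
    obtain ⟨-, -, -, -, -, -, -, -, hf, hg, ha, -⟩ := hx (ξ 0) (hξI 0 (by omega))
    have h1 := hξb 0 (by omega)
    have h2 : |D| ≤ |A * (g (ξ 0) + f (ξ 0) * a (ξ 0)) + B * a (ξ 0) + D| +
        |A * (g (ξ 0) + f (ξ 0) * a (ξ 0)) + B * a (ξ 0)| := by
      have := abs_sub (A * (g (ξ 0) + f (ξ 0) * a (ξ 0)) + B * a (ξ 0) + D)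
        (A * (g (ξ 0) + f (ξ 0) * a (ξ 0)) + B * a (ξ 0))
      rwa [add_sub_cancel_left] at this
    have h3 : |A * (g (ξ 0) + f (ξ 0) * a (ξ 0)) + B * a (ξ 0)| ≤
        |A| * |g (ξ 0) + f (ξ 0) * a (ξ 0)| + |B| * |a (ξ 0)| := by
      rw [← abs_mul, ← abs_mul]
      exact abs_add_le _ _
    have h4 : |g (ξ 0) + f (ξ 0) * a (ξ 0)| ≤ C + C * C := by
      refine (abs_add_le _ _).trans (add_le_add hg ?_)
      rw [abs_mul]
      exact mul_le_mul hf ha (abs_nonneg _) (by linarith)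
    have h5 : |A| * |g (ξ 0) + f (ξ 0) * a (ξ 0)| ≤ kA * e * (C + C * C) :=
      mul_le_mul P3 h4 (abs_nonneg _) (by positivity)
    have h6 : |B| * |a (ξ 0)| ≤ kB * e * C := mul_le_mul P4 ha (abs_nonneg _) (by positivity)
    have h7 : 2 / c * (e * σ ^ 2) ≤ 2 / c * e := by
      apply mul_le_mul_of_nonneg_left _ (by positivity)
      nlinarith
    rw [hkD]
    linarith
  have P6 : |E| ≤ kE * e := by
    obtain ⟨-, -, -, -, -, -, -, -, hf, hg, ha, -⟩ := hx (x 0) (hxE 0 (by omega)).1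
    have h1 := (hxE 0 (by omega)).2
    have h2 : |E| ≤ |A * (f (x 0) * g (x 0)) + B * g (x 0) + D * f (x 0) + E| +
        |A * (f (x 0) * g (x 0)) + B * g (x 0) + D * f (x 0)| := by
      have := abs_sub (A * (f (x 0) * g (x 0)) + B * g (x 0) + D * f (x 0) + E)
        (A * (f (x 0) * g (x 0)) + B * g (x 0) + D * f (x 0))
      rwa [add_sub_cancel_left] at this
    have h3 : |A * (f (x 0) * g (x 0)) + B * g (x 0) + D * f (x 0)| ≤
        |A| * |f (x 0) * g (x 0)| + |B| * |g (x 0)| + |D| * |f (x 0)| := by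
      rw [← abs_mul, ← abs_mul, ← abs_mul]
      exact (abs_add_le _ _).trans (add_le_add_left (abs_add_le _ _) _)
    have h4 : |f (x 0) * g (x 0)| ≤ C * C := by
      rw [abs_mul]
      exact mul_le_mul hf hg (abs_nonneg _) (by linarith)
    have h5 : |A| * |f (x 0) * g (x 0)| ≤ kA * e * (C * C) :=
      mul_le_mul P3 h4 (abs_nonneg _) (by positivity)
    have h6 : |B| * |g (x 0)| ≤ kB * e * C := mul_le_mul P4 hg (abs_nonneg _) (by positivity)
    have h8 : |D| * |f (x 0)| ≤ kD * e * C := mul_le_mul P5 hf (abs_nonneg _) (by positivity)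
    have h7 : ε ≤ e := by
      rw [e3]
      nlinarith
    rw [hkE]
    linarith
  have q1 := mul_nonneg pA he0.le
  have q2 := mul_nonneg pB he0.le
  have q3 := mul_nonneg pD he0.le
  have q4 := mul_nonneg (zero_le_one.trans pE) he0.le
  refine ⟨?_, ?_, ?_, ?_⟩ <;> linarith

end Pool.Agent.Helper433_LM
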