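import Mathlib
import Pool.Agent.Helper433_LM.A

set_option autoImplicit false
set_option linter.unusedVariables false

/-!
# Nondegeneracy away from a countable set
-/

namespace Pool.Agent.Helper433_LM

open Set Filter Topology

/-- Zeros of a nonzero analytic function are countable. -/
theorem countable_zeros {Ψ : ℝ → ℝ} {I : Set ℝ} (hΨ : AnalyticOnNhd ℝ Ψ I) (hI : IsPreconnected I)
    (hne : ∃ x ∈ I, Ψ x ≠ 0) : {x | x ∈ I ∧ Ψ x = 0}.Countable := by
  have h1 : ∀ x ∈ {x | x ∈ I ∧ Ψ x = 0}, 𝓝[≠] x ⊓ 𝓟 {x | x ∈ I ∧ Ψ x = 0} = ⊥ := by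
    rintro x ⟨hxI, -⟩
    rw [inf_principal_eq_bot]
    by_contra hcon
    have h2 : ∃ᶠ y in 𝓝[≠] x, Ψ y = 0 := by
      intro h3
      apply hcon
      filter_upwards [h3] with y hy
      intro h4
      exact hy h4.2
    obtain ⟨y, hy, hy0⟩ := hne
    exact hy0 (hΨ.eqOn_zero_of_preconnected_of_frequently_eq_zero hI hxI h2 hy)
  have h2 : DiscreteTopology {x | x ∈ I ∧ Ψ x = 0} := discreteTopology_subtype_iff.2 h1
  have h3 : Countable {x | x ∈ I ∧ Ψ x = 0} :=
    TopologicalSpace.separableSpace_iff_countable.1 inferInstance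
  exact h3

theorem const_of {F : ℝ → ℝ} {x₀ r : ℝ} (h : ∀ y ∈ Metric.ball x₀ r, HasDerivAt F 0 y) :
    ∀ y ∈ Metric.ball x₀ r, F y = F x₀ := by
  intro y hy
  have hr : 0 < r := dist_nonneg.trans_lt hy
  exact Metric.isOpen_ball.is_const_of_deriv_eq_zero (convex_ball x₀ r).isPreconnected
    (fun z hz => (h z hz).differentiableAt.differentiableWithinAt) (fun z hz => (h z hz).deriv) hy
    (Metric.mem_ball_self hr)

noncomputable def P2 (f g : ℝ → ℝ) : ℝ → ℝ :=
  fun x => deriv (deriv g) x * deriv f x - deriv g x * deriv (deriv f) x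

noncomputable def W (f g : ℝ → ℝ) : ℝ → ℝ :=
  fun x => 2 * (deriv (deriv g) x * deriv f x ^ 2 + 2 * deriv g x * deriv f x * deriv (deriv f) x) *
    P2 f g x - 2 * deriv g x * deriv f x ^ 2 * deriv (P2 f g) x + deriv f x * P2 f g x ^ 2

variable {f g : ℝ → ℝ} {I : Set ℝ}

theorem an_P2 (hf : AnalyticOnNhd ℝ f I) (hg : AnalyticOnNhd ℝ g I) : AnalyticOnNhd ℝ (P2 f g) I :=
  (hg.deriv.deriv.mul hf.deriv).sub (hg.deriv.mul hf.deriv.deriv)

theorem an_W (hf : AnalyticOnNhd ℝ f I) (hg : AnalyticOnNhd ℝ g I) : AnalyticOnNhd ℝ (W f g) I := by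
  have h1 := an_P2 hf hg
  have f1 := hf.deriv
  have f2 := hf.deriv.deriv
  have g1 := hg.deriv
  have g2 := hg.deriv.deriv
  intro x hx
  have h2 : AnalyticAt ℝ (fun _ : ℝ => (2 : ℝ)) x := analyticAt_const
  exact (((h2.mul (((g2 x hx).mul ((f1 x hx).pow 2)).add (((h2.mul (g1 x hx)).mul (f1 x hx)).mul
    (f2 x hx)))).mul (h1 x hx)).sub (((h2.mul (g1 x hx)).mul ((f1 x hx).pow 2)).mul
    (h1.deriv x hx))).add ((f1 x hx).mul ((h1 x hx).pow 2))

theorem da (hf : AnalyticOnNhd ℝ f I) (hg : AnalyticOnNhd ℝ g I) {y : ℝ} (hy : y ∈ I)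
    (h1 : deriv f y ≠ 0) :
    HasDerivAt (fun x => deriv g x / deriv f x) (P2 f g y / deriv f y ^ 2) y := by
  refine ((hg.deriv y hy).differentiableAt.hasDerivAt.div
    (hf.deriv y hy).differentiableAt.hasDerivAt h1).congr_deriv ?_
  rw [P2]

theorem db (hf : AnalyticOnNhd ℝ f I) (hg : AnalyticOnNhd ℝ g I) {y : ℝ} (hy : y ∈ I)
    (h1 : deriv f y ≠ 0) (h2 : P2 f g y ≠ 0) :
    HasDerivAt (fun x => 2 * deriv g x * deriv f x ^ 2 / P2 f g x + f x) (W f g y / P2 f g y ^ 2) y := by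
  have e1 := (hg.deriv y hy).differentiableAt.hasDerivAt
  have e2 := (hf.deriv y hy).differentiableAt.hasDerivAt
  have e3 := (an_P2 hf hg y hy).differentiableAt.hasDerivAt
  have e4 := (hf y hy).differentiableAt.hasDerivAt
  refine ((((e1.const_mul 2).mul (e2.pow 2)).div e3 h2).add e4).congr_deriv ?_
  rw [W]
  simp only [Pi.mul_apply, Pi.pow_apply]
  field_simp
  ring

theorem psi_ne (hI : IsOpen I) (hc : IsPreconnected I) (hne : I.Nonempty)
    (hf : AnalyticOnNhd ℝ f I) (hg : AnalyticOnNhd ℝ g I)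
    (LI : ∀ A B D E : ℝ, (∀ x ∈ I, A * (f x * g x) + B * g x + D * f x + E = 0) →
      A = 0 ∧ B = 0 ∧ D = 0 ∧ E = 0) :
    ∃ x ∈ I, deriv f x * (P2 f g x * W f g x) ≠ 0 := by
  by_contra hcon
  push Not at hcon
  -- relations near a point extend to `I`
  have ext : ∀ (x₀ : ℝ), x₀ ∈ I → ∀ A B D E r : ℝ, 0 < r →
      (∀ x ∈ Metric.ball x₀ r, A * (f x * g x) + B * g x + D * f x + E = 0) →
      A = 0 ∧ B = 0 ∧ D = 0 ∧ E = 0 := by
    intro x₀ hx₀ A B D E r hr h
    apply LI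
    have han : AnalyticOnNhd ℝ (fun x => A * (f x * g x) + B * g x + D * f x + E) I := by
      intro x hx
      exact (((analyticAt_const.mul ((hf x hx).mul (hg x hx))).add
        (analyticAt_const.mul (hg x hx))).add (analyticAt_const.mul (hf x hx))).add analyticAt_const
    have h2 := han.eqOn_zero_of_preconnected_of_eventuallyEq_zero hc hx₀
      (by filter_upwards [Metric.ball_mem_nhds x₀ hr] with x hx using h x hx)
    intro x hx
    exact h2 hx
  have c1 : ∃ x ∈ I, deriv f x ≠ 0 := by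
    by_contra h
    push Not at h
    obtain ⟨x₀, hx₀⟩ := hne
    obtain ⟨r, hr, hb⟩ := Metric.isOpen_iff.1 hI x₀ hx₀
    have h1 := const_of (F := f) (x₀ := x₀) (r := r) (fun y hy => by
      have := (hf y (hb hy)).differentiableAt.hasDerivAt
      rwa [h y (hb hy)] at this)
    have h2 := ext x₀ hx₀ 0 0 1 (-f x₀) r hr (fun x hx => by rw [h1 x hx]; ring)
    exact one_ne_zero h2.2.2.1
  have good : ∀ x₀ ∈ I, deriv f x₀ ≠ 0 → ∃ r > 0, Metric.ball x₀ r ⊆ I ∧
      ∀ y ∈ Metric.ball x₀ r, deriv f y ≠ 0 := by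
    intro x₀ hx₀ h
    obtain ⟨r, hr, hb⟩ := Metric.mem_nhds_iff.1 (Filter.inter_mem (hI.mem_nhds hx₀)
      ((hf.deriv x₀ hx₀).continuousAt.eventually_ne h))
    exact ⟨r, hr, fun y hy => (hb hy).1, fun y hy => (hb hy).2⟩
  have c2 : ∃ x ∈ I, P2 f g x ≠ 0 := by
    by_contra h
    push Not at h
    obtain ⟨x₀, hx₀, hfx⟩ := c1
    obtain ⟨r, hr, hb, hfr⟩ := good x₀ hx₀ hfx
    have h1 := const_of (F := fun x => deriv g x / deriv f x) (x₀ := x₀) (r := r) (fun y hy => by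
      have := da hf hg (hb hy) (hfr y hy)
      rwa [h y (hb hy), zero_div] at this)
    obtain ⟨K, hK⟩ : ∃ K, K = deriv g x₀ / deriv f x₀ := ⟨_, rfl⟩
    have h2 := const_of (F := fun x => g x - K * f x) (x₀ := x₀) (r := r) (fun y hy => by
      have e1 := (hf y (hb hy)).differentiableAt.hasDerivAt
      have e2 := (hg y (hb hy)).differentiableAt.hasDerivAt
      refine (e2.sub (e1.const_mul K)).congr_deriv ?_
      have := h1 y hy
      rw [← hK, div_eq_iff (hfr y hy)] at this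
      rw [this, sub_self])
    have h3 := ext x₀ hx₀ 0 1 (-K) (-(g x₀ - K * f x₀)) r hr (fun x hx => by
      have := h2 x hx
      linarith)
    exact one_ne_zero h3.2.1
  have c3 : ∃ x ∈ I, deriv f x * P2 f g x ≠ 0 := by
    by_contra h
    push Not at h
    rcases hf.deriv.eq_zero_or_eq_zero_of_mul_eq_zero (an_P2 hf hg) h hc with h1 | h1
    · obtain ⟨x, hx, hx'⟩ := c1
      exact hx' (h1 x hx)
    · obtain ⟨x, hx, hx'⟩ := c2
      exact hx' (h1 x hx)
  have c4 : ∀ x ∈ I, W f g x = 0 := by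
    have h : ∀ x ∈ I, (fun x => deriv f x * P2 f g x) x * W f g x = 0 := by
      intro x hx
      have := hcon x hx
      simp only
      rw [mul_assoc]
      exact this
    rcases (hf.deriv.mul (an_P2 hf hg)).eq_zero_or_eq_zero_of_mul_eq_zero (an_W hf hg) h hc with h1 | h1
    · obtain ⟨x, hx, hx'⟩ := c3
      exact absurd (h1 x hx) hx'
    · exact h1
  obtain ⟨x₀, hx₀, hfP⟩ := c3
  obtain ⟨r, hr, hb⟩ := Metric.mem_nhds_iff.1 (Filter.inter_mem (hI.mem_nhds hx₀)
      (((hf.deriv.mul (an_P2 hf hg)) x₀ hx₀).continuousAt.eventually_ne hfP))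
  have hbI : ∀ y ∈ Metric.ball x₀ r, y ∈ I := fun y hy => (hb hy).1
  have hb1 : ∀ y ∈ Metric.ball x₀ r, deriv f y ≠ 0 := fun y hy => left_ne_zero_of_mul (hb hy).2
  have hb2 : ∀ y ∈ Metric.ball x₀ r, P2 f g y ≠ 0 := fun y hy => right_ne_zero_of_mul (hb hy).2
  have h1 := const_of (F := fun x => 2 * deriv g x * deriv f x ^ 2 / P2 f g x + f x) (x₀ := x₀)
    (r := r) (fun y hy => by
      have := db hf hg (hbI y hy) (hb1 y hy) (hb2 y hy)
      rwa [c4 y (hbI y hy), zero_div] at this)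
  obtain ⟨b0, hb0⟩ : ∃ b0, b0 = 2 * deriv g x₀ * deriv f x₀ ^ 2 / P2 f g x₀ + f x₀ := ⟨_, rfl⟩
  have rel : ∀ y ∈ Metric.ball x₀ r, 2 * deriv g y * deriv f y ^ 2 = (b0 - f y) * P2 f g y := by
    intro y hy
    have := h1 y hy
    rw [← hb0] at this
    have h2 : 2 * deriv g y * deriv f y ^ 2 / P2 f g y = b0 - f y := by linarith
    rwa [div_eq_iff (hb2 y hy)] at h2
  have h2 := const_of (F := fun x => deriv g x / deriv f x * ((b0 - f x) * (b0 - f x))) (x₀ := x₀)
    (r := r) (fun y hy => by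
      have e1 := da hf hg (hbI y hy) (hb1 y hy)
      have e2 := ((hf y (hbI y hy)).differentiableAt.hasDerivAt).const_sub b0
      refine (e1.mul (e2.mul e2)).congr_deriv ?_
      have h3 := hb1 y hy
      have h4 := rel y hy
      simp only [Pi.mul_apply]
      field_simp
      linear_combination (-(b0 - f y)) * h4)
  have h3 := const_of (F := fun x => g x - deriv g x / deriv f x * (b0 - f x)) (x₀ := x₀)
    (r := r) (fun y hy => by
      have e1 := da hf hg (hbI y hy) (hb1 y hy)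
      have e2 := ((hf y (hbI y hy)).differentiableAt.hasDerivAt).const_sub b0
      have e3 := (hg y (hbI y hy)).differentiableAt.hasDerivAt
      refine (e3.sub (e1.mul e2)).congr_deriv ?_
      have h3 := hb1 y hy
      have h4 := rel y hy
      field_simp
      linear_combination h4)
  obtain ⟨K, hK⟩ : ∃ K, K = deriv g x₀ / deriv f x₀ * ((b0 - f x₀) * (b0 - f x₀)) := ⟨_, rfl⟩
  obtain ⟨L, hL⟩ : ∃ L, L = g x₀ - deriv g x₀ / deriv f x₀ * (b0 - f x₀) := ⟨_, rfl⟩
  have h5 := ext x₀ hx₀ (-1) b0 L (-(K + L * b0)) r hr (fun x hx => by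
    have e1 := h2 x hx
    have e2 := h3 x hx
    rw [← hK] at e1
    rw [← hL] at e2
    linear_combination (b0 - f x) * e2 + e1)
  have := h5.1
  norm_num at this

/-- Nondegeneracy near good points. -/
theorem nd_of (hI : IsOpen I) (hf : AnalyticOnNhd ℝ f I) (hg : AnalyticOnNhd ℝ g I) {x : ℝ}
    (hx : x ∈ I) (h : deriv f x * (P2 f g x * W f g x) ≠ 0) :
    ∃ δ > 0, ∃ c C, Icc (x - δ) (x + δ) ⊆ I ∧ ND f g (x - δ) (x + δ) c C := by
  have h1 : deriv f x ≠ 0 := left_ne_zero_of_mul h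
  have h2 : P2 f g x ≠ 0 := left_ne_zero_of_mul (right_ne_zero_of_mul h)
  have h3 : W f g x ≠ 0 := right_ne_zero_of_mul (right_ne_zero_of_mul h)
  have k1 := (hf.deriv x hx).continuousAt
  have k2 := (an_P2 hf hg x hx).continuousAt
  have k3 := (an_W hf hg x hx).continuousAt
  have k4 := (hf x hx).continuousAt
  have k5 := (hg x hx).continuousAt
  have k6 := (da hf hg hx h1).continuousAt
  have k7 := (db hf hg hx h1 h2).continuousAt
  have k8 : ContinuousAt (fun y => P2 f g y / deriv f y ^ 2) x := k2.div (k1.pow 2) (pow_ne_zero 2 h1)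
  have k9 : ContinuousAt (fun y => W f g y / P2 f g y ^ 2) x := k3.div (k2.pow 2) (pow_ne_zero 2 h2)
  obtain ⟨m, hm⟩ : ∃ m, m = min (|deriv f x|) (min (|P2 f g x / deriv f x ^ 2|)
    (|W f g x / P2 f g x ^ 2|)) := ⟨_, rfl⟩
  have hm0 : 0 < m := by
    rw [hm]
    have e1 : 0 < |deriv f x| := abs_pos.2 h1
    have e2 : 0 < |P2 f g x / deriv f x ^ 2| := abs_pos.2 (div_ne_zero h2 (pow_ne_zero 2 h1))
    have e3 : 0 < |W f g x / P2 f g x ^ 2| := abs_pos.2 (div_ne_zero h3 (pow_ne_zero 2 h2))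
    exact lt_min e1 (lt_min e2 e3)
  obtain ⟨C, hC⟩ : ∃ C, C = 1 + |f x| + |g x| + |deriv g x / deriv f x| +
    |2 * deriv g x * deriv f x ^ 2 / P2 f g x + f x| := ⟨_, rfl⟩
  have low : ∀ {F : ℝ → ℝ}, ContinuousAt F x → m ≤ |F x| → ∀ᶠ y in 𝓝 x, m / 2 ≤ |F y| := by
    intro F hF hmF
    exact (hF.abs.eventually (lt_mem_nhds (show m / 2 < |F x| by linarith))).mono fun y hy => hy.le
  have up : ∀ {F : ℝ → ℝ}, ContinuousAt F x → |F x| + 1 ≤ C → ∀ᶠ y in 𝓝 x, |F y| ≤ C := by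
    intro F hF hmF
    exact (hF.abs.eventually (gt_mem_nhds (show |F x| < C by linarith))).mono fun y hy => hy.le
  have a1 := abs_nonneg (f x)
  have a2 := abs_nonneg (g x)
  have a3 := abs_nonneg (deriv g x / deriv f x)
  have a4 := abs_nonneg (2 * deriv g x * deriv f x ^ 2 / P2 f g x + f x)
  have ev := (hI.eventually_mem hx).and ((k1.eventually_ne h1).and ((k2.eventually_ne h2).and
    ((low k1 (by rw [hm]; exact min_le_left _ _)).and
    ((low k8 (by rw [hm]; exact (min_le_right _ _).trans (min_le_left _ _))).and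
    ((low k9 (by rw [hm]; exact (min_le_right _ _).trans (min_le_right _ _))).and
    ((up k4 (by rw [hC]; linarith)).and ((up k5 (by rw [hC]; linarith)).and
    ((up k6 (by rw [hC]; linarith)).and (up k7 (by rw [hC]; linarith))))))))))
  obtain ⟨δ, hδ, hball⟩ := Metric.eventually_nhds_iff.1 ev
  have hin : ∀ y ∈ Icc (x - δ / 2) (x + δ / 2), dist y x < δ := by
    intro y hy
    rw [Real.dist_eq, abs_lt]
    constructor <;> linarith [hy.1, hy.2]
  refine ⟨δ / 2, by positivity, m / 2, C, fun y hy => (hball (hin y hy)).1, ?_, ?_, ?_⟩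
  · positivity
  · rw [hC]; linarith
  · refine ⟨deriv f, fun y => deriv g y / deriv f y, fun y => P2 f g y / deriv f y ^ 2,
      fun x => 2 * deriv g x * deriv f x ^ 2 / P2 f g x + f x, fun y => W f g y / P2 f g y ^ 2, ?_⟩
    intro y hy
    obtain ⟨y0, y1, y2, y3, y4, y5, y6, y7, y8, y9⟩ := hball (hin y hy)
    refine ⟨(hf y y0).differentiableAt.hasDerivAt, ?_, da hf hg y0 y1, db hf hg y0 y1 y2, ?_, y3, y4,
      y5, y6, y7, y8, y9⟩
    · refine (hg y y0).differentiableAt.hasDerivAt.congr_deriv ?_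
      field_simp
    · field_simp

end Pool.Agent.Helper433_LM
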