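import Mathlib
import Pool.Agent.Helper433_LM.B

set_option autoImplicit false
set_option linter.unusedVariables false

/-!
# Measure of the bad sets
-/

namespace Pool.Agent.Helper433_LM

open Set Filter Topology MeasureTheory

abbrev Z4 := ℤ × ℤ × ℤ × ℤ

/-- Size of an integer vector, plus one. -/
noncomputable def X (x : Z4) : ℝ :=
  1 + |(x.1 : ℝ)| + |(x.2.1 : ℝ)| + |(x.2.2.1 : ℝ)| + |(x.2.2.2 : ℝ)|

theorem X_one (x : Z4) : 1 ≤ X x := by
  rw [X]
  have := abs_nonneg (x.1 : ℝ)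
  have := abs_nonneg (x.2.1 : ℝ)
  have := abs_nonneg (x.2.2.1 : ℝ)
  have := abs_nonneg (x.2.2.2 : ℝ)
  linarith

theorem X_pos (x : Z4) : 0 < X x := zero_lt_one.trans_le (X_one x)

theorem abs_one_le {n : ℤ} (h : n ≠ 0) : 1 ≤ |(n : ℝ)| := by
  have := Int.one_le_abs h
  exact_mod_cast this

theorem ne_zero_cases {x : Z4} (h : x ≠ 0) : x.1 ≠ 0 ∨ x.2.1 ≠ 0 ∨ x.2.2.1 ≠ 0 ∨ x.2.2.2 ≠ 0 := by
  by_contra hcon
  push Not at hcon
  apply h
  obtain ⟨a, b, c, d⟩ := x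
  simp only at hcon
  obtain ⟨rfl, rfl, rfl, rfl⟩ := hcon
  rfl

theorem X_two {x : Z4} (h : x ≠ 0) : 2 ≤ X x := by
  rw [X]
  have := abs_nonneg (x.1 : ℝ)
  have := abs_nonneg (x.2.1 : ℝ)
  have := abs_nonneg (x.2.2.1 : ℝ)
  have := abs_nonneg (x.2.2.2 : ℝ)
  rcases ne_zero_cases h with h | h | h | h <;> have := abs_one_le h <;> linarith

theorem summable_X : Summable fun x : Z4 => ((X x) ^ 8)⁻¹ := by
  have h1 : Summable fun n : ℤ => ((1 + |(n : ℝ)|) ^ 2)⁻¹ := by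
    have h0 : Summable fun n : ℕ => ((1 + |(n : ℝ)|) ^ 2)⁻¹ := by
      have := (summable_nat_add_iff 1).2 (Real.summable_one_div_nat_pow.2 (one_lt_two : 1 < 2))
      refine this.congr fun n => ?_
      rw [Nat.abs_cast, one_div]
      push_cast
      rw [add_comm]
    refine Summable.of_nat_of_neg (h0.congr fun n => ?_) (h0.congr fun n => ?_)
    · simp
    · simp
  have h2 := h1.mul_of_nonneg h1 (fun n => by positivity) (fun n => by positivity)
  have h3 := h1.mul_of_nonneg h2 (fun n => by positivity) (fun n => by positivity)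
  have h4 := h1.mul_of_nonneg h3 (fun n => by positivity) (fun n => by positivity)
  refine Summable.of_nonneg_of_le (fun x => ?_) (fun x => ?_) h4
  · have := X_pos x
    positivity
  · have a1 := abs_nonneg (x.1 : ℝ)
    have a2 := abs_nonneg (x.2.1 : ℝ)
    have a3 := abs_nonneg (x.2.2.1 : ℝ)
    have a4 := abs_nonneg (x.2.2.2 : ℝ)
    have e1 : 1 + |(x.1 : ℝ)| ≤ X x := by rw [X]; linarith
    have e2 : 1 + |(x.2.1 : ℝ)| ≤ X x := by rw [X]; linarith
    have e3 : 1 + |(x.2.2.1 : ℝ)| ≤ X x := by rw [X]; linarith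
    have e4 : 1 + |(x.2.2.2 : ℝ)| ≤ X x := by rw [X]; linarith
    rw [← mul_inv, ← mul_inv, ← mul_inv]
    apply inv_anti₀ (by positivity)
    calc (1 + |(x.1 : ℝ)|) ^ 2 * ((1 + |(x.2.1 : ℝ)|) ^ 2 * ((1 + |(x.2.2.1 : ℝ)|) ^ 2 *
          (1 + |(x.2.2.2 : ℝ)|) ^ 2)) ≤ X x ^ 2 * (X x ^ 2 * (X x ^ 2 * X x ^ 2)) := by gcongr
      _ = X x ^ 8 := by ring

/-- The form whose smallness expresses an approximation of `g(A)`. -/
noncomputable def Φ (G : ℝ → ℝ) (x : Z4) (α y : ℝ) : ℝ :=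
  G α * (x.1 + y * x.2.1) - (x.2.2.1 + y * x.2.2.2)

theorem vol_E {f g : ℝ → ℝ} {p q c C m M : ℝ} (h : ND f g p q c C) (hm : 0 < m) (hpq : p ≤ q)
    (hM : 0 < M) : ∃ K > 0, ∀ u₁ u₂ : ℝ, m ≤ |u₂| → |u₂| ≤ M → ∀ x : Z4, x ≠ 0 → ∀ n : ℕ,
    volume {α | α ∈ Icc p q ∧ |Φ g x α ((f α - u₁) / u₂)| < ((X x) ^ (3 * n))⁻¹} ≤
      ENNReal.ofReal (K * ((X x) ^ n)⁻¹) := by
  obtain ⟨K, hK, hcoef⟩ := coef_bound h
  obtain ⟨κ, hκ⟩ : ∃ κ, κ = min 1 m := ⟨_, rfl⟩
  have hκ0 : 0 < κ := by rw [hκ]; positivity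
  have hκ1 : κ ≤ 1 := by rw [hκ]; exact min_le_left _ _
  have hκm : κ ≤ m := by rw [hκ]; exact min_le_right _ _
  obtain ⟨K₁, hK₁⟩ : ∃ K₁, K₁ = 1 + K * M / κ := ⟨_, rfl⟩
  have hK1 : 1 ≤ K₁ := by
    rw [hK₁]
    have : 0 ≤ K * M / κ := by positivity
    linarith
  refine ⟨(14 + (q - p)) * K₁, mul_pos (by linarith) (by linarith), ?_⟩
  intro u₁ u₂ hu hu' x hx n
  have hX := X_pos x
  have hXn : 0 < ((X x) ^ n)⁻¹ := by positivity
  obtain ⟨σ, hσ⟩ : ∃ σ, σ = K₁ * ((X x) ^ n)⁻¹ := ⟨_, rfl⟩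
  have hσ0 : 0 < σ := by rw [hσ]; positivity
  obtain ⟨E, hE⟩ : ∃ E, E = {α | α ∈ Icc p q ∧ |Φ g x α ((f α - u₁) / u₂)| < ((X x) ^ (3 * n))⁻¹} :=
    ⟨_, rfl⟩
  rw [← hE]
  have hu0 : u₂ ≠ 0 := by
    intro h0
    rw [h0, abs_zero] at hu
    linarith
  rcases le_or_gt σ 1 with hσ1 | hσ1
  · rcases cover_or_points hσ0 7 E ⟨p, by rw [hE]; exact fun α hα => hα.1.1⟩ with ⟨cc, hcc⟩ | ⟨w, hw, hgap⟩
    · calc volume E ≤ volume (⋃ i, Icc (cc i) (cc i + 2 * σ)) := measure_mono hcc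
        _ ≤ ∑' i, volume (Icc (cc i) (cc i + 2 * σ)) := measure_iUnion_le _
        _ = ∑ i : Fin 7, ENNReal.ofReal (2 * σ) := by
            rw [tsum_fintype]
            refine Finset.sum_congr rfl fun i _ => ?_
            rw [Real.volume_Icc]
            congr 1
            ring
        _ = ENNReal.ofReal (7 * (2 * σ)) := by
            rw [Finset.sum_const, Finset.card_univ, Fintype.card_fin, nsmul_eq_mul,
              ENNReal.ofReal_mul (by norm_num : (0 : ℝ) ≤ 7)]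
            norm_num
        _ ≤ ENNReal.ofReal ((14 + (q - p)) * K₁ * ((X x) ^ n)⁻¹) := by
            apply ENNReal.ofReal_le_ofReal
            have : 0 ≤ (q - p) * σ := mul_nonneg (by linarith) hσ0.le
            rw [mul_assoc, ← hσ]
            linarith
    · exfalso
      obtain ⟨A, hA⟩ : ∃ A : ℝ, A = x.2.1 := ⟨_, rfl⟩
      obtain ⟨B, hB⟩ : ∃ B : ℝ, B = x.1 * u₂ - u₁ * x.2.1 := ⟨_, rfl⟩
      obtain ⟨D, hD⟩ : ∃ D : ℝ, D = -x.2.2.2 := ⟨_, rfl⟩
      obtain ⟨F, hF⟩ : ∃ F : ℝ, F = -(x.2.2.1 * u₂ - u₁ * x.2.2.2) := ⟨_, rfl⟩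
      have hε : 0 < M * ((X x) ^ (3 * n))⁻¹ := by positivity
      have h1 := hcoef A B D F (M * ((X x) ^ (3 * n))⁻¹) σ hσ0 hσ1 hε w (fun i hi => by
        have h2 := hw i hi
        rw [hE] at h2
        refine ⟨h2.1, ?_⟩
        have h3 : A * (f (w i) * g (w i)) + B * g (w i) + D * f (w i) + F =
            u₂ * Φ g x (w i) ((f (w i) - u₁) / u₂) := by
          rw [hA, hB, hD, hF, Φ]
          field_simp
          ring
        rw [h3, abs_mul]
        exact mul_le_mul hu' h2.2.le (abs_nonneg _) hM.le) hgap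
      have h2 : K * (M * ((X x) ^ (3 * n))⁻¹ / σ ^ 3) < κ := by
        have e1 : σ ^ 3 = K₁ ^ 3 * ((X x) ^ (3 * n))⁻¹ := by
          rw [hσ, mul_pow, inv_pow, ← pow_mul, mul_comm n 3]
        have e2 : K * (M * ((X x) ^ (3 * n))⁻¹ / σ ^ 3) = K * M / K₁ ^ 3 := by
          rw [e1]
          field_simp
        rw [e2, div_lt_iff₀ (by positivity)]
        have e3 : K * M < κ * K₁ := by
          rw [hK₁, mul_add, mul_one, mul_div_cancel₀ _ hκ0.ne']
          linarith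
        have e4 : K₁ ≤ K₁ ^ 3 := le_self_pow₀ hK1 (by norm_num)
        have e5 : κ * K₁ ≤ κ * K₁ ^ 3 := mul_le_mul_of_nonneg_left e4 hκ0.le
        linarith
      obtain ⟨b1, b2, b3, b4⟩ := h1
      by_cases z1 : x.2.1 = 0
      · by_cases z3 : x.2.2.2 = 0
        · by_cases z0 : x.1 = 0
          · by_cases z2 : x.2.2.1 = 0
            · rcases ne_zero_cases hx with h | h | h | h <;> contradiction
            · have e : |F| = |(x.2.2.1 : ℝ)| * |u₂| := by
                rw [hF, z3, ← abs_mul, abs_neg]; simp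
              have e1 := abs_one_le z2
              have e2 : 1 * m ≤ |(x.2.2.1 : ℝ)| * |u₂| := mul_le_mul e1 hu hm.le (abs_nonneg _)
              linarith
          · have e : |B| = |(x.1 : ℝ)| * |u₂| := by
              rw [hB, z1, ← abs_mul]; simp
            have e1 := abs_one_le z0
            have e2 : 1 * m ≤ |(x.1 : ℝ)| * |u₂| := mul_le_mul e1 hu hm.le (abs_nonneg _)
            linarith
        · have e1 := abs_one_le z3
          have e : |D| = |(x.2.2.2 : ℝ)| := by rw [hD, abs_neg]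
          linarith
      · have e1 := abs_one_le z1
        rw [← hA] at e1
        linarith
  · calc volume E ≤ volume (Icc p q) := measure_mono (by rw [hE]; exact fun α hα => hα.1)
      _ = ENNReal.ofReal (q - p) := Real.volume_Icc
      _ ≤ ENNReal.ofReal ((14 + (q - p)) * K₁ * ((X x) ^ n)⁻¹) := by
          apply ENNReal.ofReal_le_ofReal
          have : (q - p) * 1 ≤ (q - p) * σ := mul_le_mul_of_nonneg_left hσ1.le (by linarith)
          rw [mul_assoc, ← hσ]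
          linarith

theorem exists_pos_le (d : ℕ → ℝ) (hd : ∀ l, 0 < d l) (L : ℕ) : ∃ e > 0, ∀ l ≤ L, e ≤ d l := by
  induction L with
  | zero => exact ⟨d 0, hd 0, fun l hl => by rw [Nat.le_zero.1 hl]⟩
  | succ L ih =>
    obtain ⟨e, he, h⟩ := ih
    refine ⟨min e (d (L + 1)), lt_min he (hd _), fun l hl => ?_⟩
    rcases Nat.lt_or_ge l (L + 1) with h1 | h1
    · exact (min_le_left _ _).trans (h l (by omega))
    · rw [le_antisymm hl h1]; exact min_le_right _ _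

theorem exists_pos_le_finite {ι : Type*} {S : Set ι} (hS : S.Finite) (d : ι → ℝ)
    (hd : ∀ i ∈ S, 0 < d i) : ∃ e > 0, ∀ i ∈ S, e ≤ d i := by
  rcases S.eq_empty_or_nonempty with h | h
  · exact ⟨1, one_pos, fun i hi => by rw [h] at hi; exact absurd hi (notMem_empty i)⟩
  · obtain ⟨i, hi, hmin⟩ := hS.exists_minimalFor d S h
    exact ⟨d i, hd i hi, fun j hj => by
      rcases le_total (d i) (d j) with h1 | h1
      · exact h1
      · exact hmin hj h1⟩

end Pool.Agent.Helper433_LM
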