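import Mathlib
import Pool.Agent.Helper433_LM.C

set_option autoImplicit false
set_option linter.unusedVariables false

/-!
# The step of the construction
-/

namespace Pool.Agent.Helper433_LM

open Set Filter Topology MeasureTheory

/-- `1, f, g, f g` are linearly independent on `I`. -/
def LI (f g : ℝ → ℝ) (I : Set ℝ) : Prop :=
  ∀ A B D E : ℝ, (∀ x ∈ I, A * (f x * g x) + B * g x + D * f x + E = 0) →
    A = 0 ∧ B = 0 ∧ D = 0 ∧ E = 0

def Gen (F G : ℕ → ℝ → ℝ) (I : Set ℝ) (α : ℝ) : Prop :=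
  α ∈ I ∧ (∀ k l, deriv (F k) α * (P2 (F k) (G l) α * W (F k) (G l) α) ≠ 0) ∧ ∀ k, F k α ≠ F k 0

variable {F G : ℕ → ℝ → ℝ} {I : Set ℝ}

theorem gen_countable (hI : IsOpen I) (hc : IsPreconnected I) (h0 : (0 : ℝ) ∈ I)
    (hF : ∀ k, AnalyticOnNhd ℝ (F k) I) (hG : ∀ l, AnalyticOnNhd ℝ (G l) I)
    (hLI : ∀ k l, LI (F k) (G l) I) : {α | α ∈ I ∧ ¬ Gen F G I α}.Countable := by
  have h1 : ∀ k l, {α | α ∈ I ∧ deriv (F k) α * (P2 (F k) (G l) α * W (F k) (G l) α) = 0}.Countable :=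
    fun k l => countable_zeros ((hF k).deriv.mul ((an_P2 (hF k) (hG l)).mul (an_W (hF k) (hG l)))) hc
      (psi_ne hI hc ⟨0, h0⟩ (hF k) (hG l) (hLI k l))
  have h2 : ∀ k, {α | α ∈ I ∧ (fun x => F k x - F k 0) α = 0}.Countable := by
    intro k
    apply countable_zeros _ hc
    · by_contra hcon
      push Not at hcon
      have := hLI k 0 0 0 1 (-F k 0) (fun x hx => by
        have := hcon x hx
        linarith)
      exact one_ne_zero this.2.2.1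
    · intro x hx
      exact (hF k x hx).sub analyticAt_const
  have h3 := (countable_iUnion fun k => countable_iUnion fun l => h1 k l).union (countable_iUnion h2)
  refine h3.mono ?_
  rintro α ⟨hα, hg⟩
  rw [Gen] at hg
  by_cases c1 : ∀ k l, deriv (F k) α * (P2 (F k) (G l) α * W (F k) (G l) α) ≠ 0
  · right
    rw [mem_iUnion]
    by_contra hcon
    push Not at hcon
    exact hg ⟨hα, c1, fun k h => hcon k ⟨hα, by show F k α - F k 0 = 0; rw [h, sub_self]⟩⟩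
  · left
    push Not at c1
    obtain ⟨k, l, h⟩ := c1
    exact mem_iUnion.2 ⟨k, mem_iUnion.2 ⟨l, hα, h⟩⟩

/-- A rational point near a real point, with second coordinate outside a finite set. -/
theorem exists_rat_near (U₁ U₂ r : ℝ) (hr : 0 < r) (T : Finset ℚ) :
    ∃ u₁ u₂ : ℚ, |(u₁ : ℝ) - U₁| < r ∧ |(u₂ : ℝ) - U₂| < r ∧ u₂ ∉ T := by
  obtain ⟨u₁, h1, h2⟩ := exists_rat_btwn (show U₁ - r < U₁ + r by linarith)
  have hfin : ((fun q : ℚ => (q : ℝ)) '' (T : Set ℚ)).Finite := T.finite_toSet.image _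
  have hne : (Ioo (U₂ - r) (U₂ + r) \ ((fun q : ℚ => (q : ℝ)) '' (T : Set ℚ))).Nonempty :=
    ((Ioo_infinite (show U₂ - r < U₂ + r by linarith)).sdiff hfin).nonempty
  have ho : IsOpen (Ioo (U₂ - r) (U₂ + r) \ ((fun q : ℚ => (q : ℝ)) '' (T : Set ℚ))) :=
    isOpen_Ioo.sdiff hfin.isClosed
  obtain ⟨u₂, hu₂⟩ := Rat.denseRange_cast.exists_mem_open ho hne
  refine ⟨u₁, u₂, ?_, ?_, ?_⟩
  · rw [abs_lt]; constructor <;> linarith
  · rw [abs_lt]
    constructor <;> linarith [hu₂.1.1, hu₂.1.2]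
  · intro h
    exact hu₂.2 ⟨u₂, h, rfl⟩

theorem ND.injOn {f g : ℝ → ℝ} {p q c C : ℝ} (h : ND f g p q c C) : InjOn f (Icc p q) := by
  obtain ⟨f', a, a', b, b', hx⟩ := h.ex
  have key : ∀ s ∈ Icc p q, ∀ t ∈ Icc p q, s < t → f s ≠ f t := by
    intro s hs t ht hst heq
    have hsub : Icc s t ⊆ Icc p q := Icc_subset_Icc hs.1 ht.2
    obtain ⟨ξ, hξ, h0⟩ := exists_hasDerivAt_eq_zero (f := f) (f' := f') hst
      (fun x hx' => (hx x (hsub hx')).1.continuousAt.continuousWithinAt) heq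
      (fun x hx' => (hx x (hsub (Ioo_subset_Icc_self hx'))).1)
    have h2 := (hx ξ (hsub (Ioo_subset_Icc_self hξ))).2.2.2.2.2.1
    rw [h0, abs_zero] at h2
    exact absurd h.cpos (not_lt.2 h2)
  intro s hs t ht heq
  rcases lt_trichotomy s t with h1 | h1 | h1
  · exact absurd heq (key s hs t ht h1)
  · exact h1
  · exact absurd heq.symm (key t ht s hs h1)

theorem step (hI : IsOpen I)
    (hF : ∀ k, AnalyticOnNhd ℝ (F k) I) (hG : ∀ l, AnalyticOnNhd ℝ (G l) I)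
    (hZ : {α | α ∈ I ∧ ¬ Gen F G I α}.Countable) {α y z : ℝ} (hgen : Gen F G I α) (hyz : y ≠ z)
    (k L : ℕ) (T : Finset ℚ) :
    ∃ h₀ : ℕ, ∀ H : ℕ, h₀ ≤ H → ∃ α' y' z' : ℝ, ∃ u₁ u₂ : ℚ, Gen F G I α' ∧ y' ≠ z' ∧ u₂ ∉ T ∧
      u₂ ≠ 0 ∧ F k α' = u₁ + u₂ * y' ∧ F k 0 = u₁ + u₂ * z' ∧ Transcendental ℚ y' ∧
      |α' - α| ≤ ((H : ℝ) ^ 26)⁻¹ / 2 ∧ |y' - y| ≤ ((H : ℝ) ^ 26)⁻¹ / 2 ∧
      |z' - z| ≤ ((H : ℝ) ^ 26)⁻¹ / 2 ∧
      (∀ l ≤ L, ∃ c > 0, ∀ x : Z4, x ≠ 0 → c * ((X x) ^ 24)⁻¹ ≤ |Φ (G l) x α' y'|) ∧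
      ∀ l ≤ L, ∀ x : Z4, x ≠ 0 → (H : ℝ) < X x → ((X x) ^ 105)⁻¹ ≤ |Φ (G l) x α' y'| := by
  have nd : ∀ l, ∃ δ > 0, ∃ c C, Icc (α - δ) (α + δ) ⊆ I ∧ ND (F k) (G l) (α - δ) (α + δ) c C :=
    fun l => nd_of hI (hF k) (hG l) hgen.1 (hgen.2.1 k l)
  choose δ hδ c C hsub hnd using nd
  have hyz' : y - z ≠ 0 := sub_ne_zero.2 hyz
  obtain ⟨U₂, hU₂⟩ : ∃ U₂, U₂ = (F k α - F k 0) / (y - z) := ⟨_, rfl⟩
  obtain ⟨U₁, hU₁⟩ : ∃ U₁, U₁ = F k 0 - U₂ * z := ⟨_, rfl⟩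
  have hU20 : U₂ ≠ 0 := by
    rw [hU₂]
    exact div_ne_zero (sub_ne_zero.2 (hgen.2.2 k)) hyz'
  have hUa : 0 < |U₂| := abs_pos.2 hU20
  have hUz : (F k 0 - U₁) / U₂ = z := by
    rw [hU₁]; field_simp; ring
  have hUy : (F k α - U₁) / U₂ = y := by
    rw [div_eq_iff hU20, hU₁]
    have : U₂ * (y - z) = F k α - F k 0 := by rw [hU₂]; field_simp
    linarith
  have vol : ∀ l, ∃ K > 0, ∀ u₁ u₂ : ℝ, |U₂| / 2 ≤ |u₂| → |u₂| ≤ 2 * |U₂| → ∀ x : Z4, x ≠ 0 →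
      ∀ n : ℕ, volume {β | β ∈ Icc (α - δ l) (α + δ l) ∧
        |Φ (G l) x β ((F k β - u₁) / u₂)| < ((X x) ^ (3 * n))⁻¹} ≤
      ENNReal.ofReal (K * ((X x) ^ n)⁻¹) :=
    fun l => vol_E (hnd l) (by positivity) (by linarith [hδ l]) (by positivity)
  choose K hK hvol using vol
  obtain ⟨e, he, hel⟩ := exists_pos_le δ hδ L
  obtain ⟨Kt, hKt⟩ : ∃ Kt, Kt = ∑ l ∈ Finset.range (L + 1), K l := ⟨_, rfl⟩
  have hKle : ∀ l ≤ L, K l ≤ Kt := by
    intro l hl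
    rw [hKt]
    exact Finset.single_le_sum (fun i _ => (hK i).le) (Finset.mem_range.2 (by omega))
  have hKt0 : 0 < Kt := (hK 0).trans_le (hKle 0 (Nat.zero_le L))
  obtain ⟨S, hS⟩ : ∃ S, S = ∑' x : Z4, ((X x) ^ 8)⁻¹ := ⟨_, rfl⟩
  have hS0 : 0 ≤ S := by
    rw [hS]
    exact tsum_nonneg fun x => by have := X_pos x; positivity
  obtain ⟨C₁, hC₁, hbo⟩ := (((hF k) α hgen.1).differentiableAt.hasDerivAt.isBigO_sub).exists_pos
  rw [Asymptotics.IsBigOWith] at hbo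
  obtain ⟨e₁, he₁, hlip⟩ := Metric.eventually_nhds_iff.1 hbo
  obtain ⟨K₂, hK₂⟩ : ∃ K₂, K₂ = 4 + 16 * C₁ / |U₂| := ⟨_, rfl⟩
  have hK24 : 4 ≤ K₂ := by
    rw [hK₂]
    have : 0 ≤ 16 * C₁ / |U₂| := by positivity
    linarith
  have hK20 : 0 < K₂ := by linarith
  obtain ⟨R, hR⟩ : ∃ R, R = 1 / e + 1 / e₁ + (L + 1) * Kt * S * K₂ + 2 := ⟨_, rfl⟩
  have r1 : 0 < 1 / e := by positivity
  have r2 : 0 < 1 / e₁ := by positivity
  have r3 : 0 ≤ (L + 1) * Kt * S * K₂ := by positivity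
  refine ⟨⌈R⌉₊, fun H hH => ?_⟩
  have hHR : R ≤ H := (Nat.le_ceil R).trans (by exact_mod_cast hH)
  have hH0 : 0 < (H : ℝ) := by linarith
  have hH1 : 1 ≤ (H : ℝ) := by linarith
  obtain ⟨t, ht⟩ : ∃ t, t = ((H : ℝ) ^ 26)⁻¹ := ⟨_, rfl⟩
  rw [← ht]
  have ht0 : 0 < t := by rw [ht]; positivity
  have htH : t ≤ (H : ℝ)⁻¹ := by
    rw [ht]
    exact inv_anti₀ hH0 (le_self_pow₀ hH1 (by norm_num))
  obtain ⟨ρ, hρ⟩ : ∃ ρ, ρ = t / K₂ := ⟨_, rfl⟩
  have hρ0 : 0 < ρ := by rw [hρ]; positivity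
  have hρt : ρ ≤ t / 4 := by
    rw [hρ]
    exact div_le_div_of_nonneg_left ht0.le (by norm_num) hK24
  have hte : t ≤ e := by
    refine htH.trans ?_
    rw [inv_le_comm₀ hH0 he, ← one_div]
    linarith
  have hte1 : t ≤ e₁ := by
    refine htH.trans ?_
    rw [inv_le_comm₀ hH0 he₁, ← one_div]
    linarith
  -- choice of the rational point
  have hev : ∀ᶠ v : ℝ × ℝ in 𝓝 (U₁, U₂), |(F k α - v.1) / v.2 - y| < t / 4 ∧
      |(F k 0 - v.1) / v.2 - z| < t / 4 ∧ |U₂| / 2 < |v.2| ∧ |v.2| < 2 * |U₂| := by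
    have a1 : ContinuousAt (fun v : ℝ × ℝ => |(F k α - v.1) / v.2 - y|) (U₁, U₂) :=
      (((continuousAt_const.sub continuousAt_fst).div continuousAt_snd hU20).sub
        continuousAt_const).abs
    have a2 : ContinuousAt (fun v : ℝ × ℝ => |(F k 0 - v.1) / v.2 - z|) (U₁, U₂) :=
      (((continuousAt_const.sub continuousAt_fst).div continuousAt_snd hU20).sub
        continuousAt_const).abs
    have a3 : ContinuousAt (fun v : ℝ × ℝ => |v.2|) (U₁, U₂) := continuousAt_snd.abs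
    refine (a1.eventually (gt_mem_nhds ?_)).and ((a2.eventually (gt_mem_nhds ?_)).and
      ((a3.eventually (lt_mem_nhds ?_)).and (a3.eventually (gt_mem_nhds ?_))))
    · simp only
      rw [hUy, sub_self, abs_zero]
      positivity
    · simp only
      rw [hUz, sub_self, abs_zero]
      positivity
    · simp only
      linarith
    · simp only
      linarith
  obtain ⟨r, hr, hball⟩ := Metric.eventually_nhds_iff.1 hev
  obtain ⟨u₁, u₂, hu1, hu2, huT⟩ := exists_rat_near U₁ U₂ r hr T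
  obtain ⟨b1, b2, b3, b4⟩ := hball (y := ((u₁ : ℝ), (u₂ : ℝ))) (by
    rw [Prod.dist_eq]
    exact max_lt (by rw [Real.dist_eq]; exact hu1) (by rw [Real.dist_eq]; exact hu2))
  simp only at b1 b2 b3 b4
  have hu20 : (u₂ : ℝ) ≠ 0 := by
    intro h
    rw [h, abs_zero] at b3
    linarith
  have hu2a : 0 < |(u₂ : ℝ)| := abs_pos.2 hu20
  obtain ⟨Y, hY⟩ : ∃ Y : ℝ → ℝ, Y = fun β => (F k β - u₁) / u₂ := ⟨_, rfl⟩
  have hYα : ∀ β, |β - α| ≤ ρ → |Y β - y| ≤ t / 2 := by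
    intro β hβ
    have h1 : |F k β - F k α| ≤ C₁ * ρ := by
      have h2 := hlip (y := β) (by rw [Real.dist_eq]; linarith)
      rw [Real.norm_eq_abs, Real.norm_eq_abs] at h2
      exact h2.trans (mul_le_mul_of_nonneg_left hβ hC₁.le)
    have h3 : Y β - y = (F k β - F k α) / u₂ + ((F k α - u₁) / u₂ - y) := by
      rw [hY]; field_simp; ring
    rw [h3]
    refine (abs_add_le _ _).trans ?_
    have h4 : |(F k β - F k α) / u₂| ≤ t / 4 := by
      rw [abs_div, div_le_iff₀ hu2a]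
      have h5 : t / 4 * (|U₂| / 2) ≤ t / 4 * |(u₂ : ℝ)| :=
        mul_le_mul_of_nonneg_left b3.le (by positivity)
      have h6 : C₁ * ρ ≤ t / 4 * (|U₂| / 2) := by
        rw [hρ, mul_div_assoc', div_le_iff₀ hK20, hK₂]
        have h7 : t / 4 * (|U₂| / 2) * (4 + 16 * C₁ / |U₂|) = t / 2 * |U₂| + 2 * C₁ * t := by
          field_simp
          ring
        rw [h7]
        have : 0 < C₁ * t := by positivity
        have : 0 < t / 2 * |U₂| := by positivity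
        linarith
      linarith
    linarith
  -- the bad sets
  obtain ⟨J, hJ⟩ : ∃ J, J = Icc (α - e) (α + e) := ⟨_, rfl⟩
  have hJδ : ∀ l ≤ L, J ⊆ Icc (α - δ l) (α + δ l) := by
    intro l hl
    rw [hJ]
    exact Icc_subset_Icc (by linarith [hel l hl]) (by linarith [hel l hl])
  have hE : ∀ l ≤ L, ∀ x : Z4, x ≠ 0 → ∀ n : ℕ,
      volume {β | β ∈ J ∧ |Φ (G l) x β (Y β)| < ((X x) ^ (3 * n))⁻¹} ≤
      ENNReal.ofReal (Kt * ((X x) ^ n)⁻¹) := by
    intro l hl x hx n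
    refine (measure_mono ?_).trans ((hvol l u₁ u₂ b3.le b4.le x hx n).trans
      (ENNReal.ofReal_le_ofReal ?_))
    · rintro β ⟨h1, h2⟩
      rw [hY] at h2
      exact ⟨hJδ l hl h1, h2⟩
    · have := X_pos x
      exact mul_le_mul_of_nonneg_right (hKle l hl) (by positivity)
  have N1 : ∀ᵐ β, β ∈ J → ∀ l ≤ L, ∀ x : Z4, x ≠ 0 → Φ (G l) x β (Y β) ≠ 0 := by
    have h1 : ∀ l : ℕ, ∀ x : Z4, ∀ᵐ β, β ∈ J → l ≤ L → x ≠ 0 → Φ (G l) x β (Y β) ≠ 0 := by
      intro l x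
      by_cases hl : l ≤ L
      · by_cases hx : x = 0
        · exact ae_of_all _ fun β _ _ h => absurd hx h
        · have h2 : volume {β | β ∈ J ∧ Φ (G l) x β (Y β) = 0} ≤ 0 := by
            have h3 : Tendsto (fun n : ℕ => ENNReal.ofReal (Kt * ((X x) ^ n)⁻¹)) atTop (𝓝 0) := by
              have h4 : Tendsto (fun n : ℕ => Kt * ((X x) ^ n)⁻¹) atTop (𝓝 (Kt * 0)) :=
                (tendsto_inv_atTop_zero.comp (tendsto_pow_atTop_atTop_of_one_lt
                  (lt_of_lt_of_le one_lt_two (X_two hx)))).const_mul Kt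
              rw [mul_zero] at h4
              have h5 := ENNReal.tendsto_ofReal h4
              rwa [ENNReal.ofReal_zero] at h5
            refine ge_of_tendsto' h3 fun n => (measure_mono ?_).trans (hE l hl x hx n)
            rintro β ⟨h6, h7⟩
            have := X_pos x
            exact ⟨h6, by rw [h7, abs_zero]; positivity⟩
          rw [ae_iff]
          refine measure_mono_null ?_ (le_antisymm h2 zero_le)
          intro β hβ
          simp only [mem_ofPred_eq] at hβ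
          push Not at hβ
          exact ⟨hβ.1, hβ.2.2.2⟩
      · exact ae_of_all _ fun β _ h => absurd h hl
    have h2 := ae_all_iff.2 fun l => ae_all_iff.2 (h1 l)
    filter_upwards [h2] with β hβ h3 l hl x hx using hβ l x h3 hl hx
  have N2 : ∀ᵐ β, β ∈ J → ∀ l ≤ L,
      {x : Z4 | x ≠ 0 ∧ |Φ (G l) x β (Y β)| < ((X x) ^ 24)⁻¹}.Finite := by
    have h1 : ∀ l : ℕ, ∀ᵐ β, β ∈ J → l ≤ L →
        {x : Z4 | x ≠ 0 ∧ |Φ (G l) x β (Y β)| < ((X x) ^ 24)⁻¹}.Finite := by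
      intro l
      by_cases hl : l ≤ L
      · have h2 : ∑' x : Z4, volume {β | x ≠ 0 ∧ β ∈ J ∧
            |Φ (G l) x β (Y β)| < ((X x) ^ 24)⁻¹} ≠ ⊤ := by
          have h3 : ∑' x : Z4, ENNReal.ofReal (Kt * ((X x) ^ 8)⁻¹) ≠ ⊤ :=
            (summable_X.mul_left Kt).tsum_ofReal_ne_top
          refine ne_top_of_le_ne_top h3 (ENNReal.tsum_le_tsum fun x => ?_)
          by_cases hx : x = 0
          · have : {β | x ≠ 0 ∧ β ∈ J ∧ |Φ (G l) x β (Y β)| < ((X x) ^ 24)⁻¹} = ∅ := by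
              ext β
              simp [hx]
            rw [this, measure_empty]
            exact zero_le
          · refine (measure_mono ?_).trans (hE l hl x hx 8)
            rintro β ⟨-, h4, h5⟩
            exact ⟨h4, h5⟩
        filter_upwards [ae_finite_setOfPred_mem h2] with β hβ hβJ _
        refine hβ.subset ?_
        rintro x ⟨h4, h5⟩
        exact ⟨h4, hβJ, h5⟩
      · exact ae_of_all _ fun β _ h => absurd h hl
    have h2 := ae_all_iff.2 h1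
    filter_upwards [h2] with β hβ h3 l hl using hβ l h3 hl
  have N3 : ∀ᵐ β, β ∈ J → Gen F G I β := by
    filter_upwards [hZ.ae_notMem volume] with β hβ hβJ
    by_contra hcon
    exact hβ ⟨hsub 0 (hJδ 0 (Nat.zero_le L) hβJ), hcon⟩
  have N4 : ∀ᵐ β, β ∈ J → Transcendental ℚ (Y β) := by
    have h1 : {β | β ∈ J ∧ IsAlgebraic ℚ (Y β)}.Countable := by
      have h2 : InjOn Y {β | β ∈ J ∧ IsAlgebraic ℚ (Y β)} := by
        intro s hs t ht hst
        rw [hY] at hst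
        simp only at hst
        have h3 : F k s = F k t := by
          field_simp at hst
          linarith
        exact (hnd 0).injOn (hJδ 0 (Nat.zero_le L) hs.1) (hJδ 0 (Nat.zero_le L) ht.1) h3
      refine countable_of_injective_of_countable_image h2 ((Algebraic.countable ℚ ℝ).mono ?_)
      rintro _ ⟨β, hβ, rfl⟩
      exact hβ.2
    filter_upwards [h1.ae_notMem volume] with β hβ hβJ
    exact fun hcon => hβ ⟨hβJ, hcon⟩
  have B1 : volume (⋃ l ∈ Finset.range (L + 1), ⋃ x : Z4, {β | x ≠ 0 ∧ (H : ℝ) < X x ∧ β ∈ J ∧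
      |Φ (G l) x β (Y β)| < ((X x) ^ 105)⁻¹}) ≤
      ENNReal.ofReal ((L + 1) * (Kt * ((H : ℝ) ^ 27)⁻¹ * S)) := by
    refine (measure_biUnion_finset_le _ _).trans ?_
    have h1 : ∀ l ∈ Finset.range (L + 1), volume (⋃ x : Z4, {β | x ≠ 0 ∧ (H : ℝ) < X x ∧ β ∈ J ∧
        |Φ (G l) x β (Y β)| < ((X x) ^ 105)⁻¹}) ≤ ENNReal.ofReal (Kt * ((H : ℝ) ^ 27)⁻¹ * S) := by
      intro l hl
      have hl' : l ≤ L := by
        have := Finset.mem_range.1 hl
        omega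
      refine (measure_iUnion_le _).trans ?_
      have h2 : Kt * ((H : ℝ) ^ 27)⁻¹ * S = ∑' x : Z4, Kt * ((H : ℝ) ^ 27)⁻¹ * ((X x) ^ 8)⁻¹ := by
        rw [hS, tsum_mul_left]
      rw [h2, ENNReal.ofReal_tsum_of_nonneg (fun x => by have := X_pos x; positivity)
        (summable_X.mul_left _)]
      refine ENNReal.tsum_le_tsum fun x => ?_
      by_cases hx : x ≠ 0 ∧ (H : ℝ) < X x
      · refine (measure_mono (fun β hβ => (⟨hβ.2.2.1, hβ.2.2.2⟩ : β ∈ {β | β ∈ J ∧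
          |Φ (G l) x β (Y β)| < ((X x) ^ (3 * 35))⁻¹}))).trans ((hE l hl' x hx.1 35).trans
          (ENNReal.ofReal_le_ofReal ?_))
        have hX := X_pos x
        rw [mul_assoc]
        apply mul_le_mul_of_nonneg_left _ hKt0.le
        rw [← mul_inv]
        apply inv_anti₀ (by positivity)
        calc (H : ℝ) ^ 27 * X x ^ 8 ≤ X x ^ 27 * X x ^ 8 := by
              apply mul_le_mul_of_nonneg_right _ (by positivity)
              exact pow_le_pow_left₀ hH0.le hx.2.le 27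
          _ = X x ^ 35 := by ring
      · have : {β | x ≠ 0 ∧ (H : ℝ) < X x ∧ β ∈ J ∧ |Φ (G l) x β (Y β)| < ((X x) ^ 105)⁻¹} = ∅ := by
          ext β
          simp only [mem_ofPred_eq, mem_empty_iff_false, iff_false]
          intro h
          exact hx ⟨h.1, h.2.1⟩
        rw [this, measure_empty]
        exact zero_le
    refine (Finset.sum_le_sum h1).trans (le_of_eq ?_)
    have e1 : (L + 1 : ℝ) * (Kt * ((H : ℝ) ^ 27)⁻¹ * S) =
        ((L + 1 : ℕ) : ℝ) * (Kt * ((H : ℝ) ^ 27)⁻¹ * S) := by push_cast; ring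
    rw [Finset.sum_const, Finset.card_range, nsmul_eq_mul, e1,
      ENNReal.ofReal_mul (Nat.cast_nonneg _), ENNReal.ofReal_natCast]
  have hlt : (L + 1) * (Kt * ((H : ℝ) ^ 27)⁻¹ * S) < 2 * ρ := by
    have h1 : (L + 1) * Kt * S * K₂ < H := by linarith
    have h2 : 2 * ρ = 2 * H / K₂ * ((H : ℝ) ^ 27)⁻¹ := by
      rw [hρ, ht]
      field_simp
    have h3 : (L + 1) * (Kt * ((H : ℝ) ^ 27)⁻¹ * S) = (L + 1) * Kt * S * ((H : ℝ) ^ 27)⁻¹ := by ring
    rw [h2, h3]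
    apply mul_lt_mul_of_pos_right _ (by positivity)
    rw [lt_div_iff₀ hK20]
    linarith
  have hex : ∃ β, |β - α| ≤ ρ ∧ β ∉ (⋃ l ∈ Finset.range (L + 1), ⋃ x : Z4, {β | x ≠ 0 ∧
      (H : ℝ) < X x ∧ β ∈ J ∧ |Φ (G l) x β (Y β)| < ((X x) ^ 105)⁻¹}) ∧
      (β ∈ J → (∀ l ≤ L, ∀ x : Z4, x ≠ 0 → Φ (G l) x β (Y β) ≠ 0) ∧
        (∀ l ≤ L, {x : Z4 | x ≠ 0 ∧ |Φ (G l) x β (Y β)| < ((X x) ^ 24)⁻¹}.Finite) ∧
        Gen F G I β ∧ Transcendental ℚ (Y β)) := by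
    by_contra hcon
    push Not at hcon
    have hae : ∀ᵐ β, (β ∈ J → (∀ l ≤ L, ∀ x : Z4, x ≠ 0 → Φ (G l) x β (Y β) ≠ 0) ∧
        (∀ l ≤ L, {x : Z4 | x ≠ 0 ∧ |Φ (G l) x β (Y β)| < ((X x) ^ 24)⁻¹}.Finite) ∧
        Gen F G I β ∧ Transcendental ℚ (Y β)) := by
      filter_upwards [N1, N2, N3, N4] with β n1 n2 n3 n4 hβ
      exact ⟨n1 hβ, n2 hβ, n3 hβ, n4 hβ⟩
    rw [ae_iff] at hae
    have h1 : volume (Icc (α - ρ) (α + ρ)) ≤ ENNReal.ofReal ((L + 1) * (Kt * ((H : ℝ) ^ 27)⁻¹ * S)) := by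
      refine (measure_mono (t := (⋃ l ∈ Finset.range (L + 1), ⋃ x : Z4, {β | x ≠ 0 ∧
        (H : ℝ) < X x ∧ β ∈ J ∧ |Φ (G l) x β (Y β)| < ((X x) ^ 105)⁻¹}) ∪ _) ?_).trans
        ((measure_union_le _ _).trans ((add_le_add B1 hae.le).trans (le_of_eq (add_zero _))))
      intro β hβ
      by_cases hβ1 : β ∈ (⋃ l ∈ Finset.range (L + 1), ⋃ x : Z4, {β | x ≠ 0 ∧
        (H : ℝ) < X x ∧ β ∈ J ∧ |Φ (G l) x β (Y β)| < ((X x) ^ 105)⁻¹})
      · exact Or.inl hβ1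
      · right
        have h2 : |β - α| ≤ ρ := by
          rw [abs_le]
          constructor <;> linarith [hβ.1, hβ.2]
        obtain ⟨h3, h4⟩ := hcon β h2 hβ1
        simp only [mem_ofPred_eq]
        intro h5
        obtain ⟨q1, q2, q3, q4⟩ := h5 h3
        exact h4 q1 q2 q3 q4
    rw [Real.volume_Icc, show α + ρ - (α - ρ) = 2 * ρ by ring] at h1
    rw [ENNReal.ofReal_le_ofReal_iff (by positivity)] at h1
    linarith
  obtain ⟨β, hβρ, hβ1, hβ2⟩ := hex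
  have hβJ : β ∈ J := by
    rw [hJ]
    have := abs_le.1 hβρ
    constructor <;> linarith
  obtain ⟨q1, q2, q3, q4⟩ := hβ2 hβJ
  refine ⟨β, Y β, (F k 0 - u₁) / u₂, u₁, u₂, q3, ?_, huT, ?_, ?_, ?_, q4, ?_, hYα β hβρ, ?_, ?_, ?_⟩
  · rw [hY]
    simp only
    intro h
    rw [div_left_inj' hu20] at h
    exact q3.2.2 k (by linarith)
  · exact_mod_cast hu20
  · rw [hY]
    field_simp
    ring
  · field_simp
    ring
  · linarith
  · linarith
  · intro l hl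
    obtain ⟨c', hc', hmin⟩ := exists_pos_le_finite (q2 l hl)
      (fun x => |Φ (G l) x β (Y β)| * X x ^ 24) (fun x hx => by
        have := X_pos x
        have := abs_pos.2 (q1 l hl x hx.1)
        positivity)
    refine ⟨min 1 c', by positivity, fun x hx => ?_⟩
    have hX := X_pos x
    by_cases hx' : |Φ (G l) x β (Y β)| < ((X x) ^ 24)⁻¹
    · have h1 := hmin x ⟨hx, hx'⟩
      rw [← div_eq_mul_inv, div_le_iff₀ (by positivity)]
      exact (min_le_right _ _).trans h1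
    · push Not at hx'
      refine le_trans ?_ hx'
      have : min 1 c' ≤ 1 := min_le_left _ _
      have h2 : min 1 c' * ((X x) ^ 24)⁻¹ ≤ 1 * ((X x) ^ 24)⁻¹ :=
        mul_le_mul_of_nonneg_right this (by positivity)
      rwa [one_mul] at h2
  · intro l hl x hx hHx
    by_contra hcon
    push Not at hcon
    apply hβ1
    simp only [mem_iUnion]
    exact ⟨l, Finset.mem_range.2 (by omega), x, hx, hHx, hβJ, hcon⟩

end Pool.Agent.Helper433_LM
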