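import Mathlib
import Pool.Agent.Helper433_LM.D

set_option autoImplicit false
set_option linter.unusedVariables false

/-!
# The construction
-/

namespace Pool.Agent.Helper433_LM

open Set Filter Topology MeasureTheory

theorem phi_ball {G : ℝ → ℝ} {α' y' : ℝ} (hG : AnalyticAt ℝ G α')
    (hc : ∃ c > 0, ∀ x : Z4, x ≠ 0 → c * ((X x) ^ 24)⁻¹ ≤ |Φ G x α' y'|) :
    ∃ h₁ : ℕ, ∀ H : ℕ, h₁ ≤ H → ∀ α y : ℝ, |α - α'| ≤ ((H : ℝ) ^ 26)⁻¹ → |y - y'| ≤ ((H : ℝ) ^ 26)⁻¹ →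
      ∀ x : Z4, x ≠ 0 → X x ≤ H → |Φ G x α' y'| / 2 ≤ |Φ G x α y| := by
  obtain ⟨c, hc, hlow⟩ := hc
  obtain ⟨C₁, hC₁, hbo⟩ := (hG.differentiableAt.hasDerivAt.isBigO_sub).exists_pos
  rw [Asymptotics.IsBigOWith] at hbo
  obtain ⟨e₁, he₁, hlip⟩ := Metric.eventually_nhds_iff.1 hbo
  obtain ⟨C, hC⟩ : ∃ C, C = C₁ * (|y'| + 2) + |G α'| + 1 := ⟨_, rfl⟩
  have ay := abs_nonneg y'
  have aG := abs_nonneg (G α')
  have hCy : 0 ≤ C₁ * |y'| := by positivity
  have hC1 : 1 ≤ C := by rw [hC]; nlinarith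
  obtain ⟨R, hR⟩ : ∃ R, R = 1 / e₁ + 2 * C / c + 2 := ⟨_, rfl⟩
  have r1 : 0 < 1 / e₁ := by positivity
  have r2 : 0 < 2 * C / c := by positivity
  refine ⟨⌈R⌉₊, fun H hH α y hα hy x hx hX => ?_⟩
  have hHR : R ≤ H := (Nat.le_ceil R).trans (by exact_mod_cast hH)
  have hH0 : 0 < (H : ℝ) := by linarith
  have hH1 : 1 ≤ (H : ℝ) := by linarith
  obtain ⟨t, ht⟩ : ∃ t, t = ((H : ℝ) ^ 26)⁻¹ := ⟨_, rfl⟩
  rw [← ht] at hα hy
  have ht0 : 0 < t := by rw [ht]; positivity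
  have htH : t ≤ (H : ℝ)⁻¹ := by
    rw [ht]
    exact inv_anti₀ hH0 (le_self_pow₀ hH1 (by norm_num))
  have ht1 : t ≤ 1 := htH.trans (inv_le_one_of_one_le₀ hH1)
  have hte1 : t < e₁ := by
    refine htH.trans_lt ?_
    rw [inv_lt_comm₀ hH0 he₁, ← one_div]
    linarith
  have hd1 : |G α - G α'| ≤ C₁ * t := by
    have h2 := hlip (y := α) (by rw [Real.dist_eq]; linarith)
    rw [Real.norm_eq_abs, Real.norm_eq_abs] at h2
    exact h2.trans (mul_le_mul_of_nonneg_left hα hC₁.le)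
  have hyb : |y| ≤ |y'| + 1 := by
    have := abs_sub_abs_le_abs_sub y y'
    linarith
  have hx0 := X_pos x
  have hdiff : |Φ G x α y - Φ G x α' y'| ≤ t * C * X x := by
    have e1 : Φ G x α y - Φ G x α' y' = (G α - G α') * x.1 +
        ((G α - G α') * y + G α' * (y - y')) * x.2.1 + (-(y - y')) * x.2.2.2 := by
      rw [Φ, Φ]; ring
    rw [e1]
    refine (abs_add_le _ _).trans ((add_le_add_left (abs_add_le _ _) _).trans ?_)
    rw [abs_mul, abs_mul, abs_mul, abs_neg]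
    have q0 := abs_nonneg (x.1 : ℝ)
    have q1 := abs_nonneg (x.2.1 : ℝ)
    have q2 := abs_nonneg (x.2.2.1 : ℝ)
    have q3 := abs_nonneg (x.2.2.2 : ℝ)
    have k1 : |G α - G α'| * |(x.1 : ℝ)| ≤ t * C * |(x.1 : ℝ)| := by
      apply mul_le_mul_of_nonneg_right _ q0
      refine hd1.trans ?_
      rw [hC]
      nlinarith [mul_nonneg ht0.le hCy, mul_nonneg ht0.le aG, mul_pos ht0 hC₁]
    have k2 : |(G α - G α') * y + G α' * (y - y')| * |(x.2.1 : ℝ)| ≤ t * C * |(x.2.1 : ℝ)| := by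
      apply mul_le_mul_of_nonneg_right _ q1
      refine (abs_add_le _ _).trans ?_
      rw [abs_mul, abs_mul]
      have s1 : |G α - G α'| * |y| ≤ C₁ * t * (|y'| + 1) :=
        mul_le_mul hd1 hyb (abs_nonneg _) (by positivity)
      have s2 : |G α'| * |y - y'| ≤ |G α'| * t := mul_le_mul_of_nonneg_left hy aG
      rw [hC]
      nlinarith [mul_nonneg ht0.le hCy, mul_nonneg ht0.le aG, mul_pos ht0 hC₁]
    have k3 : |y - y'| * |(x.2.2.2 : ℝ)| ≤ t * C * |(x.2.2.2 : ℝ)| := by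
      apply mul_le_mul_of_nonneg_right _ q3
      refine hy.trans ?_
      nlinarith
    have k4 : t * C * X x = t * C * |(x.1 : ℝ)| + t * C * |(x.2.1 : ℝ)| + t * C * |(x.2.2.2 : ℝ)| +
        t * C * (1 + |(x.2.2.1 : ℝ)|) := by
      rw [X]; ring
    have k5 : 0 ≤ t * C * (1 + |(x.2.2.1 : ℝ)|) := by positivity
    linarith
  have hsmall : t * C * X x ≤ c * ((X x) ^ 24)⁻¹ / 2 := by
    have h1 : 2 * C ≤ c * H := by
      have : 2 * C / c ≤ H := by linarith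
      rw [div_le_iff₀ hc] at this
      linarith
    have h2 : X x ^ 25 ≤ (H : ℝ) ^ 25 := pow_le_pow_left₀ hx0.le hX 25
    have h3 : 2 * C * X x ^ 25 ≤ c * H * (H : ℝ) ^ 25 :=
      mul_le_mul h1 h2 (by positivity) (by positivity)
    rw [ht]
    rw [show ((H : ℝ) ^ 26)⁻¹ * C * X x = (2 * C * X x ^ 25) / (2 * X x ^ 24 * (H : ℝ) ^ 26) by
      field_simp]
    rw [show c * ((X x) ^ 24)⁻¹ / 2 = (c * H * (H : ℝ) ^ 25) / (2 * X x ^ 24 * (H : ℝ) ^ 26) by
      field_simp]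
    exact div_le_div_of_nonneg_right h3 (by positivity)
  have h4 := hlow x hx
  have h5 : |Φ G x α' y'| - |Φ G x α y| ≤ |Φ G x α y - Φ G x α' y'| := by
    rw [abs_sub_comm (Φ G x α y)]
    exact abs_sub_abs_le_abs_sub _ _
  linarith

theorem phi_ne {F : ℝ → ℝ} {α' y' : ℝ} {u₁ u₂ : ℚ} (hu2 : u₂ ≠ 0) (hFa : F α' = u₁ + u₂ * y')
    (ht : Transcendental ℚ y') {x : Z4} (hx : x ≠ 0) (hT : u₂ ≠ (x.2.2.2 : ℚ) / x.1) :
    Φ F x α' y' ≠ 0 := by
  intro h0
  rw [transcendental_iff] at ht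
  have h1 := ht (Polynomial.C (u₂ * x.2.1) * Polynomial.X ^ 2 +
    Polynomial.C (u₁ * x.2.1 + u₂ * x.1 - x.2.2.2) * Polynomial.X +
    Polynomial.C (u₁ * x.1 - x.2.2.1)) (by
      simp only [map_add, map_mul, Polynomial.aeval_C, Polynomial.aeval_X, map_pow, map_sub,
        eq_ratCast, Rat.cast_intCast]
      rw [Φ, hFa] at h0
      rw [← h0]
      ring)
  have c2 := congrArg (fun p => p.coeff 2) h1
  have c1 := congrArg (fun p => p.coeff 1) h1
  have c0 := congrArg (fun p => p.coeff 0) h1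
  simp only [Polynomial.coeff_add, Polynomial.coeff_C_mul, Polynomial.coeff_X_pow,
    Polynomial.coeff_X, Polynomial.coeff_C, Polynomial.coeff_zero] at c2 c1 c0
  norm_num at c2 c1 c0
  have x1 : x.2.1 = 0 := by
    rcases c2 with h | h
    · exact absurd h hu2
    · exact h
  rw [x1] at c1
  by_cases x0 : x.1 = 0
  · rw [x0] at c0 c1
    norm_num at c0 c1
    rcases ne_zero_cases hx with h | h | h | h
    · exact h x0
    · exact h x1
    · exact h c0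
    · exact h c1
  · apply hT
    have : (x.1 : ℚ) ≠ 0 := by exact_mod_cast x0
    rw [eq_div_iff this]
    push_cast at c1
    linarith

end Pool.Agent.Helper433_LM
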