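import Mathlib
import Pool.Agent.Helper433_LM.E

set_option autoImplicit false
set_option linter.unusedVariables false

/-!
# The nested construction
-/

namespace Pool.Agent.Helper433_LM

open Set Filter Topology MeasureTheory Metric

/-- An enumeration of the integer vectors. -/
noncomputable def en : ℕ → Z4 := fun n => Denumerable.ofNat Z4 n

theorem en_surj (x : Z4) : ∃ n, en n = x := ⟨Encodable.encode x, Denumerable.ofNat_encode x⟩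

def kk (j : ℕ) : ℕ := (Nat.unpair j).1

noncomputable def TT (j : ℕ) : Finset ℚ :=
  (Finset.range (j + 1)).image fun i => ((en i).2.2.2 : ℚ) / (en i).1

variable (F G : ℕ → ℝ → ℝ) (I : Set ℝ)

/-- A next point exists. -/
def Nxt (j : ℕ) (P : ℝ × ℝ × ℝ) (H : ℕ) : Prop :=
  ∃ α' y' z' : ℝ, ∃ u₁ u₂ : ℚ, Gen F G I α' ∧ y' ≠ z' ∧ u₂ ∉ TT j ∧ u₂ ≠ 0 ∧
    F (kk j) α' = u₁ + u₂ * y' ∧ F (kk j) 0 = u₁ + u₂ * z' ∧ Transcendental ℚ y' ∧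
    |α' - P.1| ≤ ((H : ℝ) ^ 26)⁻¹ / 2 ∧ |y' - P.2.1| ≤ ((H : ℝ) ^ 26)⁻¹ / 2 ∧
    |z' - P.2.2| ≤ ((H : ℝ) ^ 26)⁻¹ / 2 ∧
    (∀ l ≤ j, ∃ c > 0, ∀ x : Z4, x ≠ 0 → c * ((X x) ^ 24)⁻¹ ≤ |Φ (G l) x α' y'|) ∧
    ∀ l ≤ j, ∀ x : Z4, x ≠ 0 → (H : ℝ) < X x → ((X x) ^ 105)⁻¹ ≤ |Φ (G l) x α' y'|

structure Rel (j : ℕ) (P : ℝ × ℝ × ℝ) (H : ℕ) (P' : ℝ × ℝ × ℝ) (H' : ℕ) : Prop where
  lt : H < H'
  sub : closedBall P' ((H' : ℝ) ^ 26)⁻¹ ⊆ closedBall P ((H : ℝ) ^ 26)⁻¹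
  far : ∀ l ≤ j, ∀ x : Z4, x ≠ 0 → (H : ℝ) < X x → ((X x) ^ 105)⁻¹ ≤ |Φ (G l) x P'.1 P'.2.1|
  low : ∀ l ≤ j, ∃ c > 0, ∀ x : Z4, x ≠ 0 → c * ((X x) ^ 24)⁻¹ ≤ |Φ (G l) x P'.1 P'.2.1|
  ball : ∀ l ≤ j, ∀ Q ∈ closedBall P' ((H' : ℝ) ^ 26)⁻¹, ∀ x : Z4, x ≠ 0 → X x ≤ H' →
    |Φ (G l) x P'.1 P'.2.1| / 2 ≤ |Φ (G l) x Q.1 Q.2.1|
  ne : ∀ Q ∈ closedBall P' ((H' : ℝ) ^ 26)⁻¹, ∀ i ≤ j, en i ≠ 0 →
    Φ (F (kk j)) (en i) Q.1 Q.2.1 ≠ 0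
  app : ∃ m : ℕ, 1 ≤ m ∧ ∃ p₁ p₂ : ℤ, ∀ Q ∈ closedBall P' ((H' : ℝ) ^ 26)⁻¹,
    |F (kk j) Q.1 - (p₁ + p₂ * Q.2.1) / m| ≤ 1 / ((m : ℝ) ^ (j + 1) * (j + 2)) ∧
    |F (kk j) 0 - (p₁ + p₂ * Q.2.2) / m| ≤ 1 / ((m : ℝ) ^ (j + 1) * (j + 2))

variable {F G I}

theorem next (hI : IsOpen I)
    (hF : ∀ k, AnalyticOnNhd ℝ (F k) I) (hG : ∀ l, AnalyticOnNhd ℝ (G l) I)
    (hZ : {α | α ∈ I ∧ ¬ Gen F G I α}.Countable) {j : ℕ} {P : ℝ × ℝ × ℝ} {H : ℕ} (hH : 1 ≤ H)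
    (h : Nxt F G I j P H) : ∃ P' H', Rel F G j P H P' H' ∧ Nxt F G I (j + 1) P' H' ∧ 1 ≤ H' := by
  obtain ⟨α', y', z', u₁, u₂, g1, g2, g3, g4, g5, g6, g7, g8, g9, g10, g11, g12⟩ := h
  obtain ⟨P', hP'⟩ : ∃ P' : ℝ × ℝ × ℝ, P' = (α', y', z') := ⟨_, rfl⟩
  have p1 : P'.1 = α' := by rw [hP']
  have p2 : P'.2.1 = y' := by rw [hP']
  have p3 : P'.2.2 = z' := by rw [hP']
  obtain ⟨h₀, hh₀⟩ := step hI hF hG hZ g1 g2 (kk (j + 1)) (j + 1) (TT (j + 1))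
  have hb : ∀ l : ℕ, ∃ h₁ : ℕ, l ≤ j → ∀ H : ℕ, h₁ ≤ H → ∀ α y : ℝ, |α - α'| ≤ ((H : ℝ) ^ 26)⁻¹ →
      |y - y'| ≤ ((H : ℝ) ^ 26)⁻¹ → ∀ x : Z4, x ≠ 0 → X x ≤ H →
      |Φ (G l) x α' y'| / 2 ≤ |Φ (G l) x α y| := by
    intro l
    by_cases hl : l ≤ j
    · obtain ⟨h₁, hh⟩ := phi_ball (hG l α' g1.1) (g11 l hl)
      exact ⟨h₁, fun _ => hh⟩
    · exact ⟨0, fun h => absurd h hl⟩
  choose h₁ hh₁ using hb
  obtain ⟨m, hm⟩ : ∃ m : ℕ, m = u₁.den * u₂.den := ⟨_, rfl⟩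
  have hm1 : 1 ≤ m := by
    rw [hm]
    exact Nat.mul_pos u₁.den_pos u₂.den_pos
  have hm0 : 0 < (m : ℝ) := by exact_mod_cast hm1
  obtain ⟨q₁, hq₁⟩ : ∃ q : ℤ, q = u₁.num * u₂.den := ⟨_, rfl⟩
  obtain ⟨q₂, hq₂⟩ : ∃ q : ℤ, q = u₂.num * u₁.den := ⟨_, rfl⟩
  have hden1 : ((u₁.den : ℕ) : ℝ) ≠ 0 := by exact_mod_cast u₁.den_ne_zero
  have hden2 : ((u₂.den : ℕ) : ℝ) ≠ 0 := by exact_mod_cast u₂.den_ne_zero
  have hu1 : (u₁ : ℝ) = q₁ / m := by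
    rw [hq₁, hm]
    push_cast
    rw [mul_div_mul_right _ _ hden2]
    exact Rat.cast_def u₁
  have hu2 : (u₂ : ℝ) = q₂ / m := by
    rw [hq₂, hm]
    push_cast
    rw [mul_comm (u₁.den : ℝ), mul_div_mul_right _ _ hden1]
    exact Rat.cast_def u₂
  obtain ⟨dl, hdl⟩ : ∃ dl : ℝ, dl = 1 / ((m : ℝ) ^ (j + 1) * (j + 2)) := ⟨_, rfl⟩
  have hdl0 : 0 < dl := by rw [hdl]; positivity
  have cF : ContinuousAt (fun Q : ℝ × ℝ × ℝ => F (kk j) Q.1) P' := by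
    have : ContinuousAt (F (kk j)) P'.1 := by rw [p1]; exact (hF (kk j) α' g1.1).continuousAt
    exact this.comp continuousAt_fst
  have cy : ContinuousAt (fun Q : ℝ × ℝ × ℝ => Q.2.1) P' := continuous_snd.fst.continuousAt
  have cz : ContinuousAt (fun Q : ℝ × ℝ × ℝ => Q.2.2) P' := continuous_snd.snd.continuousAt
  have ev1 : ∀ᶠ Q : ℝ × ℝ × ℝ in 𝓝 P', ∀ i ∈ Iic j, en i ≠ 0 →
      Φ (F (kk j)) (en i) Q.1 Q.2.1 ≠ 0 := by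
    rw [Filter.eventually_all_finite (finite_Iic j)]
    intro i hi
    by_cases hx : en i = 0
    · exact Eventually.of_forall fun Q h => absurd hx h
    · have h1 : Φ (F (kk j)) (en i) P'.1 P'.2.1 ≠ 0 := by
        rw [p1, p2]
        refine phi_ne g4 g5 g7 hx ?_
        intro h2
        apply g3
        rw [TT, Finset.mem_image]
        exact ⟨i, Finset.mem_range.2 (Nat.lt_succ_of_le hi), h2.symm⟩
      have h2 : ContinuousAt (fun Q : ℝ × ℝ × ℝ => Φ (F (kk j)) (en i) Q.1 Q.2.1) P' :=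
        (cF.mul (continuousAt_const.add (cy.mul continuousAt_const))).sub
          (continuousAt_const.add (cy.mul continuousAt_const))
      exact (h2.eventually_ne h1).mono fun Q hQ _ => hQ
  have ev2 : ∀ᶠ Q : ℝ × ℝ × ℝ in 𝓝 P', |F (kk j) Q.1 - (q₁ + q₂ * Q.2.1) / m| < dl := by
    have h2 : ContinuousAt (fun Q : ℝ × ℝ × ℝ => |F (kk j) Q.1 - (q₁ + q₂ * Q.2.1) / m|) P' :=
      (cF.sub ((continuousAt_const.add (continuousAt_const.mul cy)).div_const _)).abs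
    refine h2.eventually (gt_mem_nhds ?_)
    have : F (kk j) P'.1 - (q₁ + q₂ * P'.2.1) / m = 0 := by
      rw [p1, p2, g5, hu1, hu2]; ring
    show |F (kk j) P'.1 - (q₁ + q₂ * P'.2.1) / m| < dl
    rw [this, abs_zero]
    exact hdl0
  have ev3 : ∀ᶠ Q : ℝ × ℝ × ℝ in 𝓝 P', |F (kk j) 0 - (q₁ + q₂ * Q.2.2) / m| < dl := by
    have h2 : ContinuousAt (fun Q : ℝ × ℝ × ℝ => |F (kk j) 0 - (q₁ + q₂ * Q.2.2) / m|) P' :=
      (continuousAt_const.sub ((continuousAt_const.add (continuousAt_const.mul cz)).div_const _)).abs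
    refine h2.eventually (gt_mem_nhds ?_)
    have : F (kk j) 0 - (q₁ + q₂ * P'.2.2) / m = 0 := by
      rw [p3, g6, hu1, hu2]; ring
    show |F (kk j) 0 - (q₁ + q₂ * P'.2.2) / m| < dl
    rw [this, abs_zero]
    exact hdl0
  obtain ⟨ε, hε, hball⟩ := Metric.eventually_nhds_iff.1 (ev1.and (ev2.and ev3))
  obtain ⟨H', hH'⟩ : ∃ H' : ℕ, H' = h₀ + (Finset.range (j + 1)).sup h₁ + 2 * H + 1 + ⌈1 / ε⌉₊ := ⟨_, rfl⟩
  have a0 : h₀ ≤ H' := by omega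
  have a1 : ∀ l ≤ j, h₁ l ≤ H' := by
    intro l hl
    have := Finset.le_sup (f := h₁) (Finset.mem_range.2 (show l < j + 1 by omega))
    omega
  have a2 : 2 * H ≤ H' := by omega
  have a3 : 1 / ε < H' := by
    have h1 : 1 / ε ≤ ⌈1 / ε⌉₊ := Nat.le_ceil _
    have h2 : ⌈1 / ε⌉₊ + 1 ≤ H' := by omega
    have h3 : ((⌈1 / ε⌉₊ : ℕ) : ℝ) + 1 ≤ H' := by exact_mod_cast h2
    linarith
  have hHr : 1 ≤ (H : ℝ) := by exact_mod_cast hH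
  have hH'1 : 1 ≤ (H' : ℝ) := by
    have : 1 ≤ H' := by omega
    exact_mod_cast this
  have hH'0 : 0 < (H' : ℝ) := by linarith
  obtain ⟨t', ht'⟩ : ∃ t', t' = ((H' : ℝ) ^ 26)⁻¹ := ⟨_, rfl⟩
  have ht'0 : 0 < t' := by rw [ht']; positivity
  have ht'ε : t' < ε := by
    have h1 : t' ≤ (H' : ℝ)⁻¹ := by
      rw [ht']
      exact inv_anti₀ hH'0 (le_self_pow₀ hH'1 (by norm_num))
    refine h1.trans_lt ?_
    rw [inv_lt_comm₀ hH'0 hε, ← one_div]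
    exact a3
  have htt : t' ≤ ((H : ℝ) ^ 26)⁻¹ / 2 := by
    have h1 : 2 * (H : ℝ) ≤ H' := by exact_mod_cast a2
    have h2 : (2 * (H : ℝ)) ^ 26 ≤ (H' : ℝ) ^ 26 := pow_le_pow_left₀ (by positivity) h1 26
    have h3 : 2 * (H : ℝ) ^ 26 ≤ (H' : ℝ) ^ 26 := by
      refine le_trans ?_ h2
      rw [mul_pow]
      have : (2 : ℝ) ≤ 2 ^ 26 := by norm_num
      nlinarith [pow_pos (show 0 < (H : ℝ) by linarith) 26]
    rw [ht']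
    have h4 : ((H : ℝ) ^ 26)⁻¹ / 2 = (2 * (H : ℝ) ^ 26)⁻¹ := by
      rw [mul_inv]; ring
    rw [h4]
    exact inv_anti₀ (by positivity) h3
  have hcb : ∀ Q ∈ closedBall P' t', |Q.1 - α'| ≤ t' ∧ |Q.2.1 - y'| ≤ t' ∧ |Q.2.2 - z'| ≤ t' := by
    intro Q hQ
    rw [mem_closedBall, Prod.dist_eq, Prod.dist_eq, Real.dist_eq, Real.dist_eq, Real.dist_eq,
      p1, p2, p3] at hQ
    exact ⟨(le_max_left _ _).trans hQ, ((le_max_left _ _).trans (le_max_right _ _)).trans hQ,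
      ((le_max_right _ _).trans (le_max_right _ _)).trans hQ⟩
  have hin : ∀ Q ∈ closedBall P' t', dist Q P' < ε := fun Q hQ => (mem_closedBall.1 hQ).trans_lt ht'ε
  refine ⟨P', H', ⟨by omega, ?_, ?_, ?_, ?_, ?_, ?_⟩, ?_, by omega⟩
  · rw [← ht']
    intro Q hQ
    have hPP : dist P' P ≤ ((H : ℝ) ^ 26)⁻¹ / 2 := by
      rw [Prod.dist_eq, Prod.dist_eq, Real.dist_eq, Real.dist_eq, Real.dist_eq, p1, p2, p3]
      exact max_le g8 (max_le g9 g10)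
    rw [mem_closedBall] at hQ ⊢
    have := dist_triangle Q P' P
    linarith
  · intro l hl x hx hX
    rw [p1, p2]
    exact g12 l hl x hx hX
  · intro l hl
    rw [p1, p2]
    exact g11 l hl
  · intro l hl Q hQ x hx hX
    rw [← ht'] at hQ
    obtain ⟨b1, b2, b3⟩ := hcb Q hQ
    rw [p1, p2]
    rw [ht'] at b1 b2
    exact hh₁ l hl H' (a1 l hl) Q.1 Q.2.1 b1 b2 x hx hX
  · intro Q hQ i hi hx
    rw [← ht'] at hQ
    exact (hball (hin Q hQ)).1 i hi hx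
  · refine ⟨m, hm1, q₁, q₂, fun Q hQ => ?_⟩
    rw [← ht'] at hQ
    rw [← hdl]
    exact ⟨(hball (hin Q hQ)).2.1.le, (hball (hin Q hQ)).2.2.le⟩
  · obtain ⟨α'', y'', z'', v₁, v₂, f1⟩ := hh₀ H' a0
    rw [Nxt, p1, p2, p3]
    exact ⟨α'', y'', z'', v₁, v₂, f1⟩

/-- The point constructed. -/
theorem exists_triple (hI : IsOpen I) (hc : IsPreconnected I) (h0 : (0 : ℝ) ∈ I)
    (hF : ∀ k, AnalyticOnNhd ℝ (F k) I) (hG : ∀ l, AnalyticOnNhd ℝ (G l) I)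
    (hLI : ∀ k l, LI (F k) (G l) I) {ρ : ℝ} (hρ : 0 < ρ) :
    ∃ α y z : ℝ, |α| < ρ ∧ α ∈ I ∧ y ≠ z ∧
      (∀ l, ∃ c > 0, ∀ x : Z4, x ≠ 0 → c * ((X x) ^ 105)⁻¹ ≤ |Φ (G l) x α y|) ∧
      (∀ k, ∀ x : Z4, x ≠ 0 → Φ (F k) x α y ≠ 0) ∧
      ∀ k N : ℕ, ∀ ε > 0, ∃ m : ℕ, 1 ≤ m ∧ ∃ p₁ p₂ : ℤ,
        |F k α - (p₁ + p₂ * y) / m| ≤ ε / (m : ℝ) ^ N ∧
        |F k 0 - (p₁ + p₂ * z) / m| ≤ ε / (m : ℝ) ^ N := by
  have hZ := gen_countable hI hc h0 hF hG hLI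
  -- the first point
  obtain ⟨r, hr, hrI⟩ := Metric.isOpen_iff.1 hI 0 h0
  obtain ⟨s, hs⟩ : ∃ s, s = min (min r ρ) 1 := ⟨_, rfl⟩
  have hs0 : 0 < s := by rw [hs]; exact lt_min (lt_min hr hρ) one_pos
  obtain ⟨α₀, hα₀, hg₀⟩ : ∃ α₀ ∈ Ioo (0 : ℝ) (s / 2), Gen F G I α₀ := by
    by_contra hcon
    push Not at hcon
    have h1 : (Ioo (0 : ℝ) (s / 2)).Countable := by
      refine hZ.mono fun α hα => ?_
      have h3 : α ∈ ball (0 : ℝ) r := by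
        rw [mem_ball, Real.dist_eq, sub_zero, abs_of_pos hα.1]
        have : s ≤ r := by rw [hs]; exact (min_le_left _ _).trans (min_le_left _ _)
        linarith [hα.2]
      exact ⟨hrI h3, hcon α hα⟩
    have h2 : volume (Ioo (0 : ℝ) (s / 2)) = 0 := h1.measure_zero volume
    rw [Real.volume_Ioo, ENNReal.ofReal_eq_zero] at h2
    linarith
  obtain ⟨h₀, hh₀⟩ := step hI hF hG hZ hg₀ (show (0 : ℝ) ≠ 1 by norm_num) (kk 0) 0 (TT 0)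
  obtain ⟨H₀, hH₀⟩ : ∃ H₀ : ℕ, H₀ = h₀ + 2 + ⌈2 / s⌉₊ := ⟨_, rfl⟩
  obtain ⟨P₀, hP₀⟩ : ∃ P₀ : ℝ × ℝ × ℝ, P₀ = (α₀, 0, 1) := ⟨_, rfl⟩
  have hN₀ : Nxt F G I 0 P₀ H₀ := by
    obtain ⟨α'', y'', z'', v₁, v₂, f1⟩ := hh₀ H₀ (by omega)
    rw [Nxt, hP₀]
    exact ⟨α'', y'', z'', v₁, v₂, f1⟩
  have hnx : ∀ (j : ℕ) (p : {p : (ℝ × ℝ × ℝ) × ℕ // Nxt F G I j p.1 p.2 ∧ 1 ≤ p.2}),
      ∃ p' : {p : (ℝ × ℝ × ℝ) × ℕ // Nxt F G I (j + 1) p.1 p.2 ∧ 1 ≤ p.2},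
        Rel F G j p.1.1 p.1.2 p'.1.1 p'.1.2 := by
    rintro j ⟨⟨P, H⟩, h1, h2⟩
    obtain ⟨P', H', h3, h4, h5⟩ := next hI hF hG hZ h2 h1
    exact ⟨⟨⟨P', H'⟩, h4, h5⟩, h3⟩
  choose nx hnx using hnx
  obtain ⟨sq, hsq0, hsq⟩ : ∃ sq : (j : ℕ) → {p : (ℝ × ℝ × ℝ) × ℕ // Nxt F G I j p.1 p.2 ∧ 1 ≤ p.2},
      sq 0 = ⟨⟨P₀, H₀⟩, hN₀, show 1 ≤ H₀ by omega⟩ ∧ ∀ j, sq (j + 1) = nx j (sq j) :=
    ⟨fun j => Nat.rec (motive := fun j => {p : (ℝ × ℝ × ℝ) × ℕ // Nxt F G I j p.1 p.2 ∧ 1 ≤ p.2})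
      ⟨⟨P₀, H₀⟩, hN₀, show 1 ≤ H₀ by omega⟩ (fun j a => nx j a) j, rfl, fun _ => rfl⟩
  obtain ⟨P, hP⟩ : ∃ P : ℕ → ℝ × ℝ × ℝ, P = fun j => (sq j).1.1 := ⟨_, rfl⟩
  obtain ⟨H, hH⟩ : ∃ H : ℕ → ℕ, H = fun j => (sq j).1.2 := ⟨_, rfl⟩
  have hrel : ∀ j, Rel F G j (P j) (H j) (P (j + 1)) (H (j + 1)) := by
    intro j
    rw [hP, hH]
    have := hnx j (sq j)
    rw [← hsq] at this
    exact this
  have hP0 : P 0 = P₀ := by rw [hP]; simp only; rw [hsq0]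
  have hH0' : H 0 = H₀ := by rw [hH]; simp only; rw [hsq0]
  have hHmono : StrictMono H := strictMono_nat_of_lt_succ fun j => (hrel j).lt
  obtain ⟨Q, hQ⟩ : (⋂ j, closedBall (P j) ((H j : ℝ) ^ 26)⁻¹).Nonempty :=
    IsCompact.nonempty_iInter_of_sequence_nonempty_isCompact_isClosed
      (fun j => closedBall (P j) ((H j : ℝ) ^ 26)⁻¹) (fun j => (hrel j).sub)
      (fun j => nonempty_closedBall.2 (by positivity)) (isCompact_closedBall _ _)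
      (fun j => isClosed_closedBall)
  rw [mem_iInter] at hQ
  have hQ0 := hQ 0
  rw [hP0, hH0', hP₀, mem_closedBall, Prod.dist_eq, Prod.dist_eq, Real.dist_eq, Real.dist_eq,
    Real.dist_eq] at hQ0
  simp only at hQ0
  have hH₀s : ((H₀ : ℝ) ^ 26)⁻¹ < s / 2 := by
    have h1 : (2 : ℝ) / s ≤ ⌈2 / s⌉₊ := Nat.le_ceil _
    have h2 : ⌈2 / s⌉₊ + 2 ≤ H₀ := by omega
    have h3 : ((⌈2 / s⌉₊ : ℕ) : ℝ) + 2 ≤ H₀ := by exact_mod_cast h2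
    have h4 : 1 ≤ (H₀ : ℝ) := by
      have : (0 : ℝ) ≤ ((⌈2 / s⌉₊ : ℕ) : ℝ) := Nat.cast_nonneg _
      linarith
    refine (inv_anti₀ (by linarith) (le_self_pow₀ h4 (by norm_num : (26 : ℕ) ≠ 0))).trans_lt ?_
    rw [inv_lt_comm₀ (by linarith) (by positivity), inv_div]
    linarith
  have c1 : |Q.1 - α₀| < s / 2 := ((le_max_left _ _).trans hQ0).trans_lt hH₀s
  have c2 : |Q.2.1 - 0| < s / 2 :=
    (((le_max_left _ _).trans (le_max_right _ _)).trans hQ0).trans_lt hH₀s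
  have c3 : |Q.2.2 - 1| < s / 2 :=
    (((le_max_right _ _).trans (le_max_right _ _)).trans hQ0).trans_lt hH₀s
  have hs1 : s ≤ 1 := by rw [hs]; exact min_le_right _ _
  have hsr : s ≤ r := by rw [hs]; exact (min_le_left _ _).trans (min_le_left _ _)
  have hsρ : s ≤ ρ := by rw [hs]; exact (min_le_left _ _).trans (min_le_right _ _)
  rw [abs_lt] at c1 c2 c3
  have hQs : |Q.1| < s := by
    rw [abs_lt]
    constructor <;> linarith [hα₀.1, hα₀.2]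
  refine ⟨Q.1, Q.2.1, Q.2.2, by linarith, hrI ?_, ?_, ?_, ?_, ?_⟩
  · rw [mem_ball, Real.dist_eq, sub_zero]
    linarith
  · intro h
    rw [h] at c2
    linarith
  · intro l
    obtain ⟨c, hc0, hlow⟩ := (hrel l).low l le_rfl
    refine ⟨min (c / 2) (1 / 2), by positivity, fun x hx => ?_⟩
    have hX := X_pos x
    have hX1 := X_one x
    have hXi : 0 < ((X x) ^ 105)⁻¹ := by positivity
    by_cases hXl : X x ≤ H (l + 1)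
    · have h1 := (hrel l).ball l le_rfl Q (hQ (l + 1)) x hx hXl
      have h2 := hlow x hx
      have h3 : ((X x) ^ 105)⁻¹ ≤ ((X x) ^ 24)⁻¹ :=
        inv_anti₀ (by positivity) (pow_le_pow_right₀ hX1 (by norm_num))
      have h4 : min (c / 2) (1 / 2) * ((X x) ^ 105)⁻¹ ≤ c / 2 * ((X x) ^ 24)⁻¹ :=
        mul_le_mul (min_le_left _ _) h3 hXi.le (by positivity)
      linarith
    · push Not at hXl
      have hex : ∃ j, X x ≤ H j := by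
        obtain ⟨j, hj⟩ := exists_nat_ge (X x)
        refine ⟨j, hj.trans ?_⟩
        exact_mod_cast hHmono.id_le j
      classical
      obtain ⟨J, hJ⟩ : ∃ J, J = Nat.find hex := ⟨_, rfl⟩
      have hJs : X x ≤ H J := by rw [hJ]; exact Nat.find_spec hex
      have hJl : l + 1 < J := by
        by_contra hcon
        push Not at hcon
        have : (H J : ℝ) ≤ H (l + 1) := by exact_mod_cast hHmono.monotone hcon
        linarith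
      obtain ⟨j, rfl⟩ : ∃ j, J = j + 1 := ⟨J - 1, by omega⟩
      have hJm : (H j : ℝ) < X x := by
        have := Nat.find_min hex (m := j) (by omega)
        push Not at this
        exact this
      have h1 := (hrel j).ball l (by omega) Q (hQ (j + 1)) x hx hJs
      have h2 := (hrel j).far l (by omega) x hx hJm
      have h4 : min (c / 2) (1 / 2) * ((X x) ^ 105)⁻¹ ≤ 1 / 2 * ((X x) ^ 105)⁻¹ :=
        mul_le_mul_of_nonneg_right (min_le_right _ _) hXi.le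
      linarith
  · intro k x hx
    obtain ⟨i, hi⟩ := en_surj x
    have h1 := (hrel (Nat.pair k i)).ne Q (hQ _) i (Nat.right_le_pair k i) (by rw [hi]; exact hx)
    have h2 : kk (Nat.pair k i) = k := by rw [kk, Nat.unpair_pair]
    rwa [h2, hi] at h1
  · intro k N ε hε
    obtain ⟨n, hn⟩ : ∃ n, n = max N ⌈1 / ε⌉₊ := ⟨_, rfl⟩
    obtain ⟨j, hj⟩ : ∃ j, j = Nat.pair k n := ⟨_, rfl⟩
    have hjn : n ≤ j := by rw [hj]; exact Nat.right_le_pair k n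
    have hjN : N ≤ j + 1 := by
      have : N ≤ n := by rw [hn]; exact le_max_left _ _
      omega
    have hjε : 1 / ε ≤ j := by
      have h1 : ⌈1 / ε⌉₊ ≤ n := by rw [hn]; exact le_max_right _ _
      have h2 : 1 / ε ≤ ⌈1 / ε⌉₊ := Nat.le_ceil _
      have h3 : ((⌈1 / ε⌉₊ : ℕ) : ℝ) ≤ j := by exact_mod_cast h1.trans hjn
      linarith
    have h2 : kk j = k := by rw [hj, kk, Nat.unpair_pair]
    obtain ⟨m, hm, p₁, p₂, h3⟩ := (hrel j).app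
    have h4 := h3 Q (hQ (j + 1))
    rw [h2] at h4
    have hm1 : 1 ≤ (m : ℝ) := by exact_mod_cast hm
    have hm0 : 0 < (m : ℝ) := by linarith
    have h5 : 1 / ((m : ℝ) ^ (j + 1) * (j + 2)) ≤ ε / (m : ℝ) ^ N := by
      rw [div_le_div_iff₀ (by positivity) (by positivity), one_mul]
      have h6 : (m : ℝ) ^ N ≤ (m : ℝ) ^ (j + 1) := pow_le_pow_right₀ hm1 hjN
      have h7 : 1 ≤ ε * (j + 2) := by
        rw [div_le_iff₀ hε] at hjε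
        nlinarith
      have h8 : (m : ℝ) ^ (j + 1) * 1 ≤ (m : ℝ) ^ (j + 1) * (ε * (j + 2)) :=
        mul_le_mul_of_nonneg_left h7 (by positivity)
      calc (m : ℝ) ^ N ≤ (m : ℝ) ^ (j + 1) := h6
        _ ≤ (m : ℝ) ^ (j + 1) * (ε * (j + 2)) := by linarith
        _ = ε * ((m : ℝ) ^ (j + 1) * (j + 2)) := by ring
    exact ⟨m, hm, p₁, p₂, h4.1.trans h5, h4.2.trans h5⟩

end Pool.Agent.Helper433_LM
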