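import Mathlib

set_option autoImplicit false
set_option linter.unusedVariables false

/-!
# Taylor series of analytic functions on an interval
-/

namespace Pool.Agent.Helper433_LM

open Set Filter Topology

theorem taylor_sum {f : ℝ → ℝ} {I : Set ℝ} (hI : IsOpen I) (hc : IsPreconnected I)
    (h0 : (0 : ℝ) ∈ I) (hf : AnalyticOnNhd ℝ f I) {ρ : ℝ} (hρ : 0 < ρ)
    (hs : ∀ x : ℝ, |x| < ρ → Summable fun j : ℕ => iteratedDeriv j f 0 / j.factorial * x ^ j)
    {x : ℝ} (hx : x ∈ I) (hxρ : |x| < ρ) :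
    HasSum (fun j : ℕ => iteratedDeriv j f 0 / j.factorial * x ^ j) (f x) := by
  have hp := (hf 0 h0).hasFPowerSeriesAt
  obtain ⟨p, hpd⟩ : ∃ p, p = FormalMultilinearSeries.ofScalars ℝ
    (fun n : ℕ => iteratedDeriv n f 0 / n.factorial) := ⟨_, rfl⟩
  rw [← hpd] at hp
  have hpn : ∀ (n : ℕ) (y : ℝ), (p n fun _ => y) = iteratedDeriv n f 0 / n.factorial * y ^ n := by
    intro n y
    rw [hpd, FormalMultilinearSeries.ofScalars_apply_eq, smul_eq_mul]
  have hrad : ENNReal.ofReal ρ ≤ p.radius := by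
    apply ENNReal.le_of_forall_nnreal_lt
    intro r hr
    have hr' : (r : ℝ) < ρ := by
      rw [ENNReal.lt_ofReal_iff_toReal_lt ENNReal.coe_ne_top] at hr
      simpa using hr
    apply p.le_radius_of_summable
    have h1 := (hs r (by rw [abs_of_nonneg r.coe_nonneg]; exact hr')).abs
    refine h1.congr fun n => ?_
    rw [hpd, FormalMultilinearSeries.ofScalars_norm, abs_mul, abs_pow, abs_of_nonneg r.coe_nonneg,
      Real.norm_eq_abs]
  have hr0 : 0 < p.radius := lt_of_lt_of_le (by simpa using hρ) hrad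
  have hq := p.hasFPowerSeriesOnBall hr0
  have hball : ∀ y : ℝ, |y| < ρ → y ∈ Metric.eball (0 : ℝ) p.radius := by
    intro y hy
    rw [Metric.mem_eball, edist_dist, Real.dist_eq, sub_zero]
    exact lt_of_lt_of_le ((ENNReal.ofReal_lt_ofReal_iff hρ).2 hy) hrad
  have heq : f =ᶠ[𝓝 0] p.sum := by
    filter_upwards [hp.eventually_hasSum, hq.hasFPowerSeriesAt.eventually_hasSum] with y h1 h2
    rw [zero_add] at h1 h2
    exact h1.unique h2
  have hU : IsPreconnected (I ∩ Metric.ball (0 : ℝ) ρ) := by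
    have h1 : OrdConnected (I ∩ Metric.ball (0 : ℝ) ρ) :=
      hc.ordConnected.inter (convex_ball (0 : ℝ) ρ).ordConnected
    exact h1.isPreconnected
  have hEq := (hf.mono (inter_subset_left (t := Metric.ball (0 : ℝ) ρ))).eqOn_of_preconnected_of_eventuallyEq
    (hq.analyticOnNhd.mono (fun y hy => hball y (by
      have := hy.2
      rwa [Metric.mem_ball, Real.dist_eq, sub_zero] at this))) hU
    (⟨h0, Metric.mem_ball_self hρ⟩ : (0 : ℝ) ∈ I ∩ Metric.ball (0 : ℝ) ρ) heq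
  have h3 := hEq (⟨hx, by rw [Metric.mem_ball, Real.dist_eq, sub_zero]; exact hxρ⟩ :
    x ∈ I ∩ Metric.ball (0 : ℝ) ρ)
  have h4 := hq.hasSum (hball x hxρ)
  rw [zero_add, ← h3] at h4
  exact h4.congr_fun fun n => (hpn n x).symm

theorem taylor_small {f : ℝ → ℝ} (hf : AnalyticAt ℝ f 0) : ∃ ρ > 0, ∀ x : ℝ, |x| < ρ →
    Summable fun j : ℕ => iteratedDeriv j f 0 / j.factorial * x ^ j := by
  obtain ⟨r, hr⟩ := hf.hasFPowerSeriesAt
  obtain ⟨ρ, h1, h2⟩ := ENNReal.lt_iff_exists_nnreal_btwn.1 hr.r_pos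
  refine ⟨ρ, by exact_mod_cast h1, fun x hx => ?_⟩
  have h3 : x ∈ Metric.eball (0 : ℝ) r := by
    rw [Metric.mem_eball, edist_dist, Real.dist_eq, sub_zero]
    refine lt_trans ?_ h2
    rw [ENNReal.ofReal_lt_iff_lt_toReal (abs_nonneg _) ENNReal.coe_ne_top]
    simpa using hx
  refine (hr.hasSum h3).summable.congr fun n => ?_
  rw [FormalMultilinearSeries.ofScalars_apply_eq, smul_eq_mul]

end Pool.Agent.Helper433_LM
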