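import Mathlib
import Pool.Agent.Helper433_LM.F
import Pool.Agent.Helper433_LM.G

set_option autoImplicit false
set_option linter.unusedVariables false

/-!
# The matrices
-/

namespace Pool.Agent.Helper433_LM

open Set Filter Topology

/-- `1, f, g, fg` are independent as soon as `f` is not a (possibly degenerate) Moebius function of
the nonconstant `g`. -/
theorem LI_of {f g : ℝ → ℝ} {I : Set ℝ} (hc : IsPreconnected I)
    (hf : AnalyticOnNhd ℝ f I) (hg : AnalyticOnNhd ℝ g I) (hgc : ∀ b : ℝ, ¬ ∀ x ∈ I, g x = b)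
    (h : ¬ ∃ a b c d : ℝ, (c ≠ 0 ∨ d ≠ 0) ∧ ∀ z ∈ I, c * g z + d ≠ 0 ∧
      f z = (a * g z + b) / (c * g z + d)) : LI f g I := by
  intro A B D E hrel
  by_cases hAD : A = 0 ∧ D = 0
  · obtain ⟨rfl, rfl⟩ := hAD
    by_cases hB : B = 0
    · subst hB
      obtain ⟨x, hx⟩ : I.Nonempty := by
        by_contra hcon
        rw [not_nonempty_iff_eq_empty] at hcon
        exact hgc 0 (fun x hx => by rw [hcon] at hx; exact absurd hx (notMem_empty x))
      have := hrel x hx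
      exact ⟨rfl, rfl, rfl, by linarith⟩
    · exfalso
      apply hgc (-E / B)
      intro x hx
      rw [eq_div_iff hB]
      linarith [hrel x hx]
  · exfalso
    by_cases hz : ∀ z ∈ I, A * g z + D ≠ 0
    · apply h
      refine ⟨-B, -E, A, D, ?_, fun z hzI => ⟨hz z hzI, ?_⟩⟩
      · by_cases hA : A = 0
        · exact Or.inr fun hD => hAD ⟨hA, hD⟩
        · exact Or.inl hA
      · rw [eq_div_iff (hz z hzI)]
        linear_combination hrel z hzI
    · push Not at hz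
      obtain ⟨z₀, hz₀, h0⟩ := hz
      have hA : A ≠ 0 := by
        intro hA
        rw [hA, zero_mul, zero_add] at h0
        exact hAD ⟨hA, h0⟩
      have h1 := hrel z₀ hz₀
      have h2 : B * g z₀ + E = 0 := by linear_combination h1 - f z₀ * h0
      have h3 : ∀ z ∈ I, (fun z => g z - g z₀) z * (fun z => A * f z + B) z = 0 := by
        intro z hz
        simp only
        linear_combination hrel z hz - f z * h0 - h2
      rcases AnalyticOnNhd.eq_zero_or_eq_zero_of_mul_eq_zero (fun x hx => (hg x hx).sub analyticAt_const)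
        (fun x hx => (analyticAt_const.mul (hf x hx)).add analyticAt_const) h3 hc with h4 | h4
      · exact hgc (g z₀) (fun x hx => by
          have : g x - g z₀ = 0 := h4 x hx
          linarith)
      · apply h
        refine ⟨0, -B / A, 0, 1, Or.inr one_ne_zero, fun z hz => ⟨by norm_num, ?_⟩⟩
        have h5 : A * f z + B = 0 := h4 z hz
        field_simp
        linarith

theorem LI.symm {f g : ℝ → ℝ} {I : Set ℝ} (h : LI f g I) : LI g f I := by
  intro A B D E hrel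
  obtain ⟨h1, h2, h3, h4⟩ := h A D B E (fun x hx => by linear_combination hrel x hx)
  exact ⟨h1, h3, h2, h4⟩

section Matrix

variable {d : ℕ}

/-- The right eigenvector for the eigenvalue `0`. -/
noncomputable def vv (d : ℕ) (y z : ℝ) : Fin (d + 2) → ℝ :=
  Fin.cons (-y / (z - y)) (Fin.cons (1 / (z - y)) fun _ => 0)

noncomputable def ww (d : ℕ) (z : ℝ) : Fin (d + 2) → ℝ := Fin.cons 1 (Fin.cons z fun _ => 0)

noncomputable def EE (d : ℕ) (y z : ℝ) : Matrix (Fin (d + 2)) (Fin (d + 2)) ℝ :=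
  Matrix.vecMulVec (vv d y z) (ww d z)

noncomputable def MM (d : ℕ) (y z s t : ℝ) : Matrix (Fin (d + 2)) (Fin (d + 2)) ℝ :=
  s • (1 - EE d y z) + t • EE d y z

theorem ww_dot (z : ℝ) (q : Fin (d + 2) → ℝ) : (ww d z) ⬝ᵥ q = q 0 + z * q 1 := by
  simp [dotProduct, Fin.sum_univ_succ, ww]

theorem EE_sq {y z : ℝ} (h : y ≠ z) : EE d y z * EE d y z = EE d y z := by
  have h' : z - y ≠ 0 := sub_ne_zero.2 (Ne.symm h)
  have h1 : (ww d z) ⬝ᵥ (vv d y z) = 1 := by
    rw [ww_dot]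
    simp [vv]
    field_simp
    ring
  rw [EE, Matrix.vecMulVec_mul_vecMulVec, h1, one_smul]

theorem MM_mulVec (y z s t : ℝ) (q : Fin (d + 2) → ℝ) :
    (MM d y z s t).mulVec q = fun i => s * q i + (t - s) * (q 0 + z * q 1) * vv d y z i := by
  ext i
  rw [MM, EE, Matrix.add_mulVec, Matrix.smul_mulVec, Matrix.smul_mulVec, Matrix.sub_mulVec,
    Matrix.one_mulVec, Matrix.vecMulVec_mulVec, ww_dot]
  simp
  ring

theorem MM_pow {y z : ℝ} (h : y ≠ z) (s t : ℝ) (j : ℕ) :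
    (MM d y z s t) ^ j = MM d y z (s ^ j) (t ^ j) := by
  have hE := EE_sq (d := d) h
  induction j with
  | zero => simp [MM]
  | succ j ih =>
    rw [pow_succ, ih]
    simp only [MM, mul_add, add_mul, mul_sub, sub_mul, smul_mul_assoc, mul_smul_comm, one_mul,
      mul_one, hE, sub_self, smul_zero, sub_zero, add_zero, zero_add, smul_smul, pow_succ]
    simp [mul_comm, smul_smul]

/-- The matrix extension of `f` at `MM (α, 0)`. -/
theorem ext_hasSum {f : ℝ → ℝ} {y z α : ℝ} (h : y ≠ z)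
    (h1 : HasSum (fun j : ℕ => iteratedDeriv j f 0 / j.factorial * α ^ j) (f α))
    (h2 : HasSum (fun j : ℕ => iteratedDeriv j f 0 / j.factorial * 0 ^ j) (f 0)) :
    HasSum (fun j : ℕ => (iteratedDeriv j f 0 / j.factorial) • (MM d y z α 0) ^ j)
      (MM d y z (f α) (f 0)) := by
  have h3 := (h1.smul_const (1 - EE d y z)).add (h2.smul_const (EE d y z))
  refine h3.congr_fun fun j => ?_
  rw [MM_pow h, MM, smul_add, smul_smul, smul_smul]

theorem MM_row (y z s t : ℝ) (h : y ≠ z) (q : Fin (d + 2) → ℝ) :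
    (MM d y z s t).mulVec q 0 + y * (MM d y z s t).mulVec q 1 = s * (q 0 + y * q 1) := by
  have h' : z - y ≠ 0 := sub_ne_zero.2 (Ne.symm h)
  rw [MM_mulVec]
  simp only
  have e0 : vv d y z 0 = -y / (z - y) := rfl
  have e1 : vv d y z 1 = 1 / (z - y) := rfl
  rw [e0, e1]
  field_simp
  ring

theorem MM_row' (y z s t : ℝ) (q : Fin (d + 2) → ℝ) (i : Fin d) :
    (MM d y z s t).mulVec q i.succ.succ = s * q i.succ.succ := by
  rw [MM_mulVec]
  simp only
  have e0 : vv d y z i.succ.succ = 0 := rfl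
  rw [e0]
  ring

/-- Condition (a). -/
theorem cond_a {F : ℝ → ℝ} {α y z t : ℝ} (h : y ≠ z) (hne : ∀ x : Z4, x ≠ 0 → Φ F x α y ≠ 0)
    (q p : Fin (d + 2) → ℤ) (hqp : ¬ (q = 0 ∧ p = 0)) :
    (MM d y z (F α) t).mulVec (fun i => (q i : ℝ)) ≠ fun i => (p i : ℝ) := by
  intro heq
  have key : ∀ x : Z4, F α * (x.1 + y * x.2.1) = x.2.2.1 + y * x.2.2.2 → x = 0 := by
    intro x hx
    by_contra hcon
    exact hne x hcon (by rw [Φ, hx, sub_self])
  have h0 : (q 0, q 1, p 0, p 1) = (0 : Z4) := by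
    apply key
    have := MM_row y z (F α) t h (fun i => (q i : ℝ))
    rw [heq] at this
    exact this.symm
  have hi : ∀ i : Fin d, (q i.succ.succ, 0, p i.succ.succ, 0) = (0 : Z4) := by
    intro i
    apply key
    have := MM_row' y z (F α) t (fun i => (q i : ℝ)) i
    rw [heq] at this
    simp only
    push_cast
    linarith
  apply hqp
  simp only [Prod.mk_eq_zero] at h0 hi
  constructor
  · ext i
    refine Fin.cases h0.1 (fun i => ?_) i
    exact Fin.cases h0.2.1 (fun i => (hi i).1) i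
  · ext i
    refine Fin.cases h0.2.2.1 (fun i => ?_) i
    exact Fin.cases h0.2.2.2 (fun i => (hi i).2.2.1) i

/-- Condition (b). -/
theorem cond_b {F : ℝ → ℝ} {α y z : ℝ} (h : y ≠ z)
    (happ : ∀ N : ℕ, ∀ ε > 0, ∃ m : ℕ, 1 ≤ m ∧ ∃ p₁ p₂ : ℤ,
        |F α - (p₁ + p₂ * y) / m| ≤ ε / (m : ℝ) ^ N ∧
        |F 0 - (p₁ + p₂ * z) / m| ≤ ε / (m : ℝ) ^ N) (N : ℝ) (hN : 0 < N) :
    ∃ p q : Fin (d + 2) → ℤ, 1 < ‖(fun i => (q i : ℝ))‖ ∧
      ‖(MM d y z (F α) (F 0)).mulVec (fun i => (q i : ℝ)) - (fun i => (p i : ℝ))‖ <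
        ‖(fun i => (q i : ℝ))‖ ^ (-N) := by
  have h' : z - y ≠ 0 := sub_ne_zero.2 (Ne.symm h)
  have ha : 0 < |z - y| := abs_pos.2 h'
  obtain ⟨K, hK⟩ : ∃ K, K = 1 + 2 * (1 + |y|) / |z - y| := ⟨_, rfl⟩
  have hK1 : 1 ≤ K := by
    rw [hK]
    have : 0 ≤ 2 * (1 + |y|) / |z - y| := by positivity
    linarith
  obtain ⟨n, hn⟩ : ∃ n, n = ⌈N⌉₊ + 1 := ⟨_, rfl⟩
  have hε : 0 < 1 / (2 * K) / 2 ^ n := by positivity
  obtain ⟨m₀, hm₀, q₁, q₂, e1, e2⟩ := happ n _ hε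
  have hm₀0 : 0 < (m₀ : ℝ) := by exact_mod_cast hm₀
  -- double the denominator
  obtain ⟨m, hm⟩ : ∃ m : ℕ, m = 2 * m₀ := ⟨_, rfl⟩
  have hm2 : 2 ≤ (m : ℝ) := by
    have : 2 ≤ m := by omega
    exact_mod_cast this
  have hm0 : 0 < (m : ℝ) := by linarith
  obtain ⟨p₁, hp₁⟩ : ∃ p : ℤ, p = 2 * q₁ := ⟨_, rfl⟩
  obtain ⟨p₂, hp₂⟩ : ∃ p : ℤ, p = 2 * q₂ := ⟨_, rfl⟩
  have eb : 1 / (2 * K) / 2 ^ n / (m₀ : ℝ) ^ n = 1 / (2 * K) / (m : ℝ) ^ n := by
    rw [hm]; push_cast; rw [mul_pow, div_div]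
  obtain ⟨η₁, hη₁⟩ : ∃ η, η = F α - (p₁ + p₂ * y) / m := ⟨_, rfl⟩
  obtain ⟨η₂, hη₂⟩ : ∃ η, η = F 0 - (p₁ + p₂ * z) / m := ⟨_, rfl⟩
  have b1 : |η₁| ≤ 1 / (2 * K) / (m : ℝ) ^ n := by
    have : η₁ = F α - (q₁ + q₂ * y) / m₀ := by
      rw [hη₁, hp₁, hp₂, hm]; push_cast; field_simp
    rw [this, ← eb]
    exact e1
  have b2 : |η₂| ≤ 1 / (2 * K) / (m : ℝ) ^ n := by
    have : η₂ = F 0 - (q₁ + q₂ * z) / m₀ := by
      rw [hη₂, hp₁, hp₂, hm]; push_cast; field_simp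
    rw [this, ← eb]
    exact e2
  obtain ⟨b, hb⟩ : ∃ b, b = 1 / (2 * K) / (m : ℝ) ^ n := ⟨_, rfl⟩
  rw [← hb] at b1 b2
  have hb0 : 0 < b := by rw [hb]; positivity
  have hs : F α = η₁ + (p₁ + p₂ * y) / m := by rw [hη₁]; ring
  have ht : F 0 = η₂ + (p₁ + p₂ * z) / m := by rw [hη₂]; ring
  have hKb : m * (K * b) < (m : ℝ) ^ (-N) := by
    have h1 : m * (K * b) = 1 / 2 * (m : ℝ) / (m : ℝ) ^ n := by
      rw [hb]; field_simp
    have h2 : (m : ℝ) / (m : ℝ) ^ n = ((m : ℝ) ^ ⌈N⌉₊)⁻¹ := by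
      rw [hn, pow_succ]; field_simp
    have h3 : ((m : ℝ) ^ ⌈N⌉₊)⁻¹ ≤ (m : ℝ) ^ (-N) := by
      rw [Real.rpow_neg hm0.le, ← Real.rpow_natCast]
      apply inv_anti₀ (Real.rpow_pos_of_pos hm0 N)
      exact Real.rpow_le_rpow_of_exponent_le (by linarith) (Nat.le_ceil N)
    have h4 : 0 < ((m : ℝ) ^ ⌈N⌉₊)⁻¹ := by positivity
    rw [h1, mul_div_assoc, h2]
    linarith
  have hdiv : |(η₂ - η₁) / (z - y)| ≤ 2 * b / |z - y| := by
    rw [abs_div]
    apply div_le_div_of_nonneg_right _ ha.le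
    have := abs_sub η₂ η₁
    linarith
  refine ⟨Fin.cons p₁ (Fin.cons p₂ fun _ => 0), Fin.cons (m : ℤ) fun _ => 0, ?_, ?_⟩
  · have h1 := norm_le_pi_norm (fun i : Fin (d + 2) =>
      (((Fin.cons (m : ℤ) fun _ => 0 : Fin (d + 2) → ℤ) i : ℤ) : ℝ)) 0
    simp only [Fin.cons_zero, Int.cast_natCast] at h1
    rw [Real.norm_eq_abs, abs_of_pos hm0] at h1
    linarith
  · have hle : ‖(fun i : Fin (d + 2) => (((Fin.cons (m : ℤ) fun _ => 0 : Fin (d + 2) → ℤ) i : ℤ) : ℝ))‖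
        ≤ m := by
      rw [pi_norm_le_iff_of_nonneg hm0.le]
      intro i
      refine Fin.cases ?_ (fun i => ?_) i
      · simp
      · simp
    have hge : 0 < ‖(fun i : Fin (d + 2) => (((Fin.cons (m : ℤ) fun _ => 0 : Fin (d + 2) → ℤ) i : ℤ) : ℝ))‖ := by
      have h1 := norm_le_pi_norm (fun i : Fin (d + 2) =>
        (((Fin.cons (m : ℤ) fun _ => 0 : Fin (d + 2) → ℤ) i : ℤ) : ℝ)) 0
      simp only [Fin.cons_zero, Int.cast_natCast] at h1
      rw [Real.norm_eq_abs, abs_of_pos hm0] at h1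
      linarith
    have hpow : (m : ℝ) ^ (-N) ≤ ‖(fun i : Fin (d + 2) =>
        (((Fin.cons (m : ℤ) fun _ => 0 : Fin (d + 2) → ℤ) i : ℤ) : ℝ))‖ ^ (-N) :=
      Real.rpow_le_rpow_of_nonpos hge hle (by linarith)
    refine lt_of_lt_of_le ?_ hpow
    refine lt_of_le_of_lt ?_ hKb
    rw [pi_norm_le_iff_of_nonneg (by positivity)]
    intro i
    rw [MM_mulVec]
    have w0 : vv d y z 0 = -y / (z - y) := rfl
    have w1 : vv d y z 1 = 1 / (z - y) := rfl
    have w2 : ∀ i : Fin d, vv d y z i.succ.succ = 0 := fun _ => rfl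
    have hbK : b + (1 + |y|) * (2 * b / |z - y|) = K * b := by
      rw [hK]; ring
    have y0 := abs_nonneg y
    have hd0 : 0 ≤ 2 * b / |z - y| := by positivity
    refine Fin.cases ?_ (fun i => Fin.cases ?_ (fun i => ?_) i) i
    · simp only [Pi.sub_apply, Fin.cons_zero, Int.cast_natCast, w0]
      have hq1 : (((Fin.cons (m : ℤ) fun _ => 0 : Fin (d + 2) → ℤ) 1 : ℤ) : ℝ) = 0 := by
        have : (Fin.cons (m : ℤ) fun _ => 0 : Fin (d + 2) → ℤ) 1 = 0 := rfl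
        rw [this]; simp
      rw [hq1, Real.norm_eq_abs]
      have : F α * m + (F 0 - F α) * (m + z * 0) * (-y / (z - y)) - p₁ =
          m * (η₁ - y * ((η₂ - η₁) / (z - y))) := by
        rw [hs, ht]; field_simp; ring
      rw [this, abs_mul, abs_of_pos hm0]
      apply mul_le_mul_of_nonneg_left _ hm0.le
      refine (abs_sub _ _).trans ?_
      rw [abs_mul, ← hbK]
      have h5 : |y| * |(η₂ - η₁) / (z - y)| ≤ |y| * (2 * b / |z - y|) :=
        mul_le_mul_of_nonneg_left hdiv y0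
      linarith
    · have hq1 : (((Fin.cons (m : ℤ) fun _ => 0 : Fin (d + 2) → ℤ) 1 : ℤ) : ℝ) = 0 := by
        have : (Fin.cons (m : ℤ) fun _ => 0 : Fin (d + 2) → ℤ) 1 = 0 := rfl
        rw [this]; simp
      have hp1 : (((Fin.cons p₁ (Fin.cons p₂ fun _ => 0) : Fin (d + 2) → ℤ) 1 : ℤ) : ℝ) = p₂ := rfl
      have hs0 : (Fin.succ (0 : Fin (d + 1)) : Fin (d + 2)) = 1 := rfl
      simp only [Pi.sub_apply, hs0, hq1, hp1, w1, Fin.cons_zero, Int.cast_natCast]
      rw [Real.norm_eq_abs]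
      have : F α * 0 + (F 0 - F α) * (m + z * 0) * (1 / (z - y)) - p₂ =
          m * ((η₂ - η₁) / (z - y)) := by
        rw [hs, ht]; field_simp; ring
      rw [this, abs_mul, abs_of_pos hm0]
      apply mul_le_mul_of_nonneg_left _ hm0.le
      rw [← hbK]
      have : 0 ≤ |y| * (2 * b / |z - y|) := by positivity
      linarith
    · have hq1 : ∀ i : Fin d, (((Fin.cons (m : ℤ) fun _ => 0 : Fin (d + 2) → ℤ) i.succ.succ : ℤ) : ℝ) = 0 := by
        intro i
        have : (Fin.cons (m : ℤ) fun _ => 0 : Fin (d + 2) → ℤ) i.succ.succ = 0 := rfl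
        rw [this]; simp
      have hp1 : ∀ i : Fin d, (((Fin.cons p₁ (Fin.cons p₂ fun _ => 0) : Fin (d + 2) → ℤ) i.succ.succ : ℤ) : ℝ) = 0 := by
        intro i
        have : (Fin.cons p₁ (Fin.cons p₂ fun _ => 0) : Fin (d + 2) → ℤ) i.succ.succ = 0 := rfl
        rw [this]; simp
      simp only [Pi.sub_apply, hq1, hp1, w2]
      simp
      positivity

/-- Failure of condition (b). -/
theorem cond_not_b {G : ℝ → ℝ} {α y z t : ℝ} (h : y ≠ z)
    (hlow : ∃ c > 0, ∀ x : Z4, x ≠ 0 → c * ((X x) ^ 105)⁻¹ ≤ |Φ G x α y|) :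
    ¬ ∀ N : ℝ, 0 < N → ∃ p q : Fin (d + 2) → ℤ, 1 < ‖(fun i => (q i : ℝ))‖ ∧
      ‖(MM d y z (G α) t).mulVec (fun i => (q i : ℝ)) - (fun i => (p i : ℝ))‖ <
        ‖(fun i => (q i : ℝ))‖ ^ (-N) := by
  obtain ⟨c, hc, hlow⟩ := hlow
  intro hcon
  obtain ⟨C, hC⟩ : ∃ C, C = |G α| + |t - G α| * (1 + |z|) * ‖vv d y z‖ := ⟨_, rfl⟩
  have hC0 : 0 ≤ C := by rw [hC]; positivity
  have hMq : ∀ (q : Fin (d + 2) → ℝ) (i : Fin (d + 2)), |(MM d y z (G α) t).mulVec q i| ≤ C * ‖q‖ := by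
    intro q i
    rw [MM_mulVec]
    simp only
    have h0 := norm_le_pi_norm q 0
    have h1 := norm_le_pi_norm q 1
    have h2 := norm_le_pi_norm q i
    have h3 := norm_le_pi_norm (vv d y z) i
    rw [Real.norm_eq_abs] at h0 h1 h2 h3
    refine (abs_add_le _ _).trans ?_
    rw [abs_mul, abs_mul, abs_mul, hC, add_mul]
    apply add_le_add (mul_le_mul_of_nonneg_left h2 (abs_nonneg _))
    have h4 : |q 0 + z * q 1| ≤ (1 + |z|) * ‖q‖ := by
      refine (abs_add_le _ _).trans ?_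
      rw [abs_mul, add_mul, one_mul]
      exact add_le_add h0 (mul_le_mul_of_nonneg_left h1 (abs_nonneg _))
    calc |t - G α| * |q 0 + z * q 1| * |vv d y z i| ≤ |t - G α| * ((1 + |z|) * ‖q‖) * ‖vv d y z‖ := by
          apply mul_le_mul _ h3 (abs_nonneg _) (by positivity)
          exact mul_le_mul_of_nonneg_left h4 (abs_nonneg _)
      _ = |t - G α| * (1 + |z|) * ‖vv d y z‖ * ‖q‖ := by ring
  obtain ⟨C₂, hC₂⟩ : ∃ C₂, C₂ = 5 + 2 * C := ⟨_, rfl⟩
  have hC20 : 0 < C₂ := by rw [hC₂]; linarith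
  obtain ⟨C₃, hC₃⟩ : ∃ C₃, C₃ = (1 + |y|) * C₂ ^ 105 / c := ⟨_, rfl⟩
  have hC30 : 0 < C₃ := by rw [hC₃]; positivity
  obtain ⟨k, hk⟩ := pow_unbounded_of_one_lt C₃ (one_lt_two : (1 : ℝ) < 2)
  obtain ⟨p, q, hq1, hqp⟩ := hcon ((k + 105 : ℕ) : ℝ) (by positivity)
  obtain ⟨Q, hQ⟩ : ∃ Q, Q = ‖(fun i => (q i : ℝ))‖ := ⟨_, rfl⟩
  obtain ⟨r, hr⟩ : ∃ r, r = ‖(MM d y z (G α) t).mulVec (fun i => (q i : ℝ)) - (fun i => (p i : ℝ))‖ := ⟨_, rfl⟩
  rw [← hQ] at hq1 hqp
  rw [← hr] at hqp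
  have hQ0 : 0 < Q := by linarith
  rw [Real.rpow_neg hQ0.le, Real.rpow_natCast] at hqp
  have hQpow : (1 : ℝ) ≤ Q ^ (k + 105) := one_le_pow₀ hq1.le
  have hr1 : r < 1 := hqp.trans_le (inv_le_one_of_one_le₀ hQpow)
  have hri : ∀ i, |(MM d y z (G α) t).mulVec (fun i => (q i : ℝ)) i - p i| ≤ r := by
    intro i
    have := norm_le_pi_norm ((MM d y z (G α) t).mulVec (fun i => (q i : ℝ)) - (fun i => (p i : ℝ))) i
    rw [← hr, Real.norm_eq_abs] at this
    exact this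
  have hqi : ∀ i, |(q i : ℝ)| ≤ Q := by
    intro i
    have := norm_le_pi_norm (fun i => (q i : ℝ)) i
    rw [← hQ, Real.norm_eq_abs] at this
    exact this
  have hpi : ∀ i, |(p i : ℝ)| ≤ (C + 1) * Q := by
    intro i
    have h1 := hri i
    have h2 := hMq (fun i => (q i : ℝ)) i
    rw [← hQ] at h2
    have h3 : |(p i : ℝ)| ≤ |(MM d y z (G α) t).mulVec (fun i => (q i : ℝ)) i| +
        |(MM d y z (G α) t).mulVec (fun i => (q i : ℝ)) i - p i| := by
      have := abs_sub ((MM d y z (G α) t).mulVec (fun i => (q i : ℝ)) i)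
        ((MM d y z (G α) t).mulVec (fun i => (q i : ℝ)) i - p i)
      rwa [sub_sub_cancel] at this
    rw [add_mul, one_mul]
    linarith
  -- integrality gives Q ≥ 2
  have hQ2 : 2 ≤ Q := by
    obtain ⟨i, hi⟩ : ∃ i, 1 < |(q i : ℝ)| := by
      by_contra hcon'
      push Not at hcon'
      have : Q ≤ 1 := by
        rw [hQ, pi_norm_le_iff_of_nonneg zero_le_one]
        exact fun i => by rw [Real.norm_eq_abs]; exact hcon' i
      linarith
    have h1 : 1 < |q i| := by exact_mod_cast hi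
    have h2 : 2 ≤ |q i| := by omega
    have h3 : (2 : ℝ) ≤ |(q i : ℝ)| := by exact_mod_cast h2
    exact h3.trans (hqi i)
  have final : ∀ x : Z4, x ≠ 0 → X x ≤ C₂ * Q → |Φ G x α y| ≤ (1 + |y|) * r → False := by
    intro x hx hX hΦ
    have h1 := hlow x hx
    have hX0 := X_pos x
    have h2 : (C₂ * Q) ^ 105 ≥ X x ^ 105 := pow_le_pow_left₀ hX0.le hX 105
    have h3 : c * ((C₂ * Q) ^ 105)⁻¹ ≤ (1 + |y|) * r := by
      refine le_trans ?_ (h1.trans hΦ)
      exact mul_le_mul_of_nonneg_left (inv_anti₀ (by positivity) h2) hc.le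
    have y0 := abs_nonneg y
    have h4 : (1 + |y|) * r < (1 + |y|) * (Q ^ (k + 105))⁻¹ := mul_lt_mul_of_pos_left hqp (by linarith)
    have h5 := h3.trans_lt h4
    rw [← div_eq_mul_inv, ← div_eq_mul_inv, div_lt_div_iff₀ (by positivity) (by positivity)] at h5
    have h6 : Q ^ k < C₃ := by
      rw [hC₃, lt_div_iff₀ hc]
      have h7 : Q ^ 105 * (Q ^ k * c) < Q ^ 105 * ((1 + |y|) * C₂ ^ 105) := by
        calc Q ^ 105 * (Q ^ k * c) = c * Q ^ (k + 105) := by ring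
          _ < (1 + |y|) * (C₂ * Q) ^ 105 := h5
          _ = Q ^ 105 * ((1 + |y|) * C₂ ^ 105) := by ring
      exact lt_of_mul_lt_mul_left h7 (by positivity)
    have h8 : (2 : ℝ) ^ k ≤ Q ^ k := pow_le_pow_left₀ (by norm_num) hQ2 k
    linarith
  have hX1 : ∀ a b a' b' : ℤ, |(a : ℝ)| ≤ Q → |(b : ℝ)| ≤ Q → |(a' : ℝ)| ≤ (C + 1) * Q →
      |(b' : ℝ)| ≤ (C + 1) * Q → X (a, b, a', b') ≤ C₂ * Q := by
    intro a b a' b' h1 h2 h3 h4
    rw [X, hC₂]
    simp only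
    nlinarith
  have y0 := abs_nonneg y
  have hr0 : 0 ≤ r := by rw [hr]; exact norm_nonneg _
  by_cases h01 : q 0 = 0 ∧ q 1 = 0
  · obtain ⟨i, hi⟩ : ∃ i : Fin d, q i.succ.succ ≠ 0 := by
      by_contra hcon'
      push Not at hcon'
      have : Q = 0 := by
        rw [hQ, norm_eq_zero]
        ext i
        refine Fin.cases ?_ (fun i => Fin.cases ?_ (fun i => ?_) i) i
        · simp [h01.1]
        · have : (Fin.succ (0 : Fin (d + 1)) : Fin (d + 2)) = 1 := rfl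
          simp [this, h01.2]
        · simp [hcon' i]
      linarith
    apply final (q i.succ.succ, 0, p i.succ.succ, 0)
    · intro h0
      exact hi (by simpa using congrArg Prod.fst h0)
    · exact hX1 _ _ _ _ (hqi _) (by simpa using hQ0.le) (hpi _) (by simp; positivity)
    · have h1 := hri i.succ.succ
      rw [MM_row'] at h1
      rw [Φ]
      simp only
      push_cast
      have e1 : G α * ((q i.succ.succ : ℝ) + y * 0) - ((p i.succ.succ : ℝ) + y * 0) =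
        G α * q i.succ.succ - p i.succ.succ := by ring
      rw [e1]
      nlinarith
  · apply final (q 0, q 1, p 0, p 1)
    · intro h0
      apply h01
      rw [Prod.mk_eq_zero, Prod.mk_eq_zero] at h0
      exact ⟨h0.1, h0.2.1⟩
    · exact hX1 _ _ _ _ (hqi _) (hqi _) (hpi _) (hpi _)
    · have h0 := hri 0
      have h1 := hri 1
      rw [Φ]
      simp only
      have h2 := MM_row y z (G α) t h (fun i => (q i : ℝ))
      rw [← h2]
      have e1 : (MM d y z (G α) t).mulVec (fun i => (q i : ℝ)) 0 +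
          y * (MM d y z (G α) t).mulVec (fun i => (q i : ℝ)) 1 - ((p 0 : ℝ) + y * p 1) =
          ((MM d y z (G α) t).mulVec (fun i => (q i : ℝ)) 0 - p 0) +
          y * ((MM d y z (G α) t).mulVec (fun i => (q i : ℝ)) 1 - p 1) := by ring
      rw [e1]
      refine (abs_add_le _ _).trans ?_
      rw [abs_mul, add_mul, one_mul]
      exact add_le_add h0 (mul_le_mul_of_nonneg_left h1 y0)

end Matrix

end Pool.Agent.Helper433_LM
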