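import Mathlib

set_option autoImplicit false
set_option linter.unusedVariables false

/-!
# Functions with small radius of convergence
-/

namespace Pool.Agent.Helper433_LM

open Set Filter Topology

theorem coef_eq {f : ℝ → ℝ} (hf : AnalyticAt ℝ f 0) {c : ℕ → ℝ}
    (h : ∀ᶠ z in 𝓝 (0 : ℝ), HasSum (fun n => c n * z ^ n) (f z)) (n : ℕ) :
    iteratedDeriv n f 0 / n.factorial = c n := by
  have h1 : HasFPowerSeriesAt f (FormalMultilinearSeries.ofScalars ℝ c) 0 := by
    rw [hasFPowerSeriesAt_iff]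
    filter_upwards [h] with z hz
    rw [zero_add]
    refine hz.congr_fun fun n => ?_
    rw [FormalMultilinearSeries.coeff_ofScalars, smul_eq_mul, mul_comm]
  have h2 := h1.eq_formalMultilinearSeries hf.hasFPowerSeriesAt
  have h3 := FormalMultilinearSeries.ofScalars_series_injective ℝ ℝ h2
  exact (congrFun h3 n).symm

/-- The functions used. -/
noncomputable def gg (κ : ℝ) : ℝ → ℝ := fun z => z + (1 + (κ * z) ^ 2)⁻¹

noncomputable def cc (κ : ℝ) (j : ℕ) : ℝ :=
  (if j = 1 then 1 else 0) + if Even j then (-1) ^ (j / 2) * κ ^ j else 0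

theorem gg_analytic (κ : ℝ) : AnalyticOnNhd ℝ (gg κ) univ := by
  intro x _
  refine analyticAt_id.add (AnalyticAt.inv ?_ ?_)
  · exact analyticAt_const.add ((analyticAt_const.mul analyticAt_id).pow 2)
  · have : 0 ≤ (κ * x) ^ 2 := sq_nonneg _
    intro h
    have h' : 1 + (κ * x) ^ 2 = 0 := h
    linarith

theorem gg_coef {κ : ℝ} (hκ : 0 < κ) (j : ℕ) : iteratedDeriv j (gg κ) 0 / j.factorial = cc κ j := by
  apply coef_eq (gg_analytic κ 0 (mem_univ _))
  filter_upwards [Metric.ball_mem_nhds (0 : ℝ) (show 0 < 1 / κ by positivity)] with z hz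
  rw [Metric.mem_ball, Real.dist_eq, sub_zero, lt_div_iff₀ hκ] at hz
  have h1 : HasSum (fun j : ℕ => (if j = 1 then (1 : ℝ) else 0) * z ^ j) z := by
    have := hasSum_single (f := fun j : ℕ => (if j = 1 then (1 : ℝ) else 0) * z ^ j) 1
      (fun j hj => by simp [hj])
    simpa using this
  have h2 : HasSum (fun j : ℕ => (if Even j then (-1 : ℝ) ^ (j / 2) * κ ^ j else 0) * z ^ j)
      ((1 + (κ * z) ^ 2)⁻¹) := by
    have h3 : HasSum (fun i : ℕ => (-(κ * z) ^ 2) ^ i) ((1 + (κ * z) ^ 2)⁻¹) := by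
      have : |(-(κ * z) ^ 2)| < 1 := by
        rw [abs_neg, abs_pow]
        apply pow_lt_one₀ (abs_nonneg _) _ (by norm_num)
        rw [abs_mul, abs_of_pos hκ, mul_comm]
        exact hz
      have h4 := hasSum_geometric_of_abs_lt_one this
      rwa [sub_neg_eq_add] at h4
    have h5 : HasSum (fun i : ℕ => (fun j : ℕ => (if Even j then (-1 : ℝ) ^ (j / 2) * κ ^ j else 0) *
        z ^ j) (2 * i)) ((1 + (κ * z) ^ 2)⁻¹) := by
      refine h3.congr_fun fun i => ?_
      have e1 : 2 * i / 2 = i := by omega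
      simp only [even_two_mul, if_true, e1]
      have e3 : (-(κ * z) ^ 2) ^ i = (-1) ^ i * (κ ^ (2 * i) * z ^ (2 * i)) := by
        rw [neg_pow, ← pow_mul, mul_pow]
      rw [e3]
      ring
    have h6 : HasSum (fun i : ℕ => (fun j : ℕ => (if Even j then (-1 : ℝ) ^ (j / 2) * κ ^ j else 0) *
        z ^ j) (2 * i + 1)) 0 := by
      refine hasSum_zero.congr_fun fun i => ?_
      have : ¬ Even (2 * i + 1) := by
        rw [Nat.not_even_iff_odd]
        exact ⟨i, rfl⟩
      simp [this]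
    have := HasSum.even_add_odd (f := fun j : ℕ => (if Even j then (-1 : ℝ) ^ (j / 2) * κ ^ j else 0) *
        z ^ j) h5 h6
    rwa [add_zero] at this
  refine (h1.add h2).congr_fun fun j => ?_
  rw [cc, add_mul]

theorem gg_not_moebius_id {κ : ℝ} (hκ : 0 < κ) : ¬ ∃ a b c d : ℝ, (c ≠ 0 ∨ d ≠ 0) ∧
    ∀ z ∈ (univ : Set ℝ), c * z + d ≠ 0 ∧ gg κ z = (a * z + b) / (c * z + d) := by
  rintro ⟨a, b, c, d, hcd, h⟩
  have hc : c = 0 := by
    by_contra hc
    apply (h (-d / c) (mem_univ _)).1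
    field_simp
    ring
  subst hc
  have hd : d ≠ 0 := by
    rcases hcd with h | h
    · exact absurd rfl h
    · exact h
  have h0 := (h 0 (mem_univ _)).2
  have h1 := (h (1 / κ) (mem_univ _)).2
  have h2 := (h (-(1 / κ)) (mem_univ _)).2
  rw [gg] at h0 h1 h2
  have e1 : κ * (1 / κ) = 1 := by field_simp
  have e2 : κ * (-(1 / κ)) = -1 := by field_simp
  rw [e1] at h1
  rw [e2] at h2
  have h0' : 1 = b / d := by simpa using h0
  rw [eq_div_iff hd] at h0'
  rw [zero_mul, zero_add, eq_div_iff hd] at h1 h2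
  norm_num at h1 h2
  apply hd
  linarith

theorem sq_not_moebius_gg {κ : ℝ} (hκ : 0 < κ) : ¬ ∃ a b c d : ℝ, (c ≠ 0 ∨ d ≠ 0) ∧
    ∀ z ∈ (univ : Set ℝ), c * gg κ z + d ≠ 0 ∧ z ^ 2 = (a * gg κ z + b) / (c * gg κ z + d) := by
  rintro ⟨a, b, c, d, hcd, h⟩
  obtain ⟨s, hs⟩ : ∃ s, s = 1 / κ := ⟨_, rfl⟩
  have hs0 : 0 < s := by rw [hs]; positivity
  have hκs : κ * s = 1 := by rw [hs]; field_simp
  have rel : ∀ z, z ^ 2 * (c * gg κ z + d) = a * gg κ z + b := by
    intro z
    have := (h z (mem_univ _)).2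
    rwa [eq_div_iff (h z (mem_univ _)).1] at this
  have g0 : gg κ 0 = 1 := by rw [gg]; simp
  have g1 : gg κ s = s + 1 / 2 := by rw [gg, hκs]; norm_num
  have g2 : gg κ (-s) = -s + 1 / 2 := by
    have : κ * -s = -1 := by linarith
    rw [gg, this]; norm_num
  have g3 : gg κ (2 * s) = 2 * s + 1 / 5 := by
    have : κ * (2 * s) = 2 := by linarith
    rw [gg, this]; norm_num
  have g4 : gg κ (-(2 * s)) = -(2 * s) + 1 / 5 := by
    have : κ * -(2 * s) = -2 := by linarith
    rw [gg, this]; norm_num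
  have r0 := rel 0
  have r1 := rel s
  have r2 := rel (-s)
  have r3 := rel (2 * s)
  have r4 := rel (-(2 * s))
  rw [g0] at r0
  rw [g1] at r1
  rw [g2] at r2
  rw [g3] at r3
  rw [g4] at r4
  have k1 : a = c * s ^ 2 := by
    have : s * (a - c * s ^ 2) = 0 := by linear_combination (-1 / 2) * r1 + (1 / 2) * r2
    rcases mul_eq_zero.1 this with h | h
    · exact absurd h hs0.ne'
    · linarith
  have k2 : a = 4 * c * s ^ 2 := by
    have : s * (a - 4 * c * s ^ 2) = 0 := by linear_combination (-1 / 4) * r3 + (1 / 4) * r4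
    rcases mul_eq_zero.1 this with h | h
    · exact absurd h hs0.ne'
    · linarith
  have hs2 : 0 < s ^ 2 := by positivity
  have k3 : c = 0 := by
    have : c * s ^ 2 = 0 := by linarith
    rcases mul_eq_zero.1 this with h | h
    · exact h
    · exact absurd h hs2.ne'
  have k4 : a = 0 := by rw [k1, k3, zero_mul]
  have k5 : b = 0 := by linarith
  have k6 : d = 0 := by
    rw [k3, k4, k5] at r1
    have : s ^ 2 * d = 0 := by linarith
    rcases mul_eq_zero.1 this with h | h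
    · exact absurd h hs2.ne'
    · exact h
  rcases hcd with h | h
  · exact h k3
  · exact h k6

/-- If the series converges then `(κ A) ^ (2 i) → 0`. -/
theorem pow_tendsto {n : ℕ} {κ : ℝ} (hκ : 0 < κ) {A M : Matrix (Fin n) (Fin n) ℝ}
    (h : Tendsto (fun N : ℕ => ∑ j ∈ Finset.range N,
      (iteratedDeriv j (gg κ) 0 / j.factorial) • A ^ j) atTop (𝓝 M)) :
    Tendsto (fun i : ℕ => κ ^ (2 * i) • A ^ (2 * i)) atTop (𝓝 0) := by
  have h1 : Tendsto (fun j : ℕ => cc κ j • A ^ j) atTop (𝓝 0) := by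
    have h2 := (h.comp (tendsto_add_atTop_nat 1)).sub h
    rw [sub_self] at h2
    refine h2.congr fun j => ?_
    simp only [Function.comp_apply]
    rw [Finset.sum_range_succ, add_sub_cancel_left, gg_coef hκ]
  have h2 : Tendsto (fun i : ℕ => 2 * i) atTop atTop :=
    tendsto_id.const_mul_atTop' (by norm_num)
  have h3 := h1.comp h2
  refine tendsto_pi_nhds.2 fun a => tendsto_pi_nhds.2 fun b => ?_
  have h5 := ((continuous_id.matrix_elem a b).tendsto (0 : Matrix (Fin n) (Fin n) ℝ)).comp h3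
  simp only [id, Matrix.zero_apply] at h5
  show Tendsto (fun i : ℕ => (κ ^ (2 * i) • A ^ (2 * i)) a b) atTop (𝓝 0)
  rw [tendsto_zero_iff_abs_tendsto_zero] at h5 ⊢
  refine h5.congr fun i => ?_
  have e1 : 2 * i / 2 = i := by omega
  have e2 : ¬ (2 * i = 1) := by omega
  simp [cc, e1, e2, abs_mul]

/-- A `2 × 2` matrix at which all the series converge has square zero. -/
theorem sq_zero {A : Matrix (Fin 2) (Fin 2) ℝ}
    (h : ∀ k : ℕ, Tendsto (fun i : ℕ => ((k : ℝ) + 1) ^ (2 * i) • A ^ (2 * i)) atTop (𝓝 0)) :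
    A ^ 2 = 0 := by
  have hCH : A ^ 2 = A.trace • A - A.det • (1 : Matrix (Fin 2) (Fin 2) ℝ) := by
    ext i j
    fin_cases i <;> fin_cases j <;>
      simp [pow_two, Matrix.mul_apply, Fin.sum_univ_two, Matrix.trace_fin_two, Matrix.det_fin_two] <;>
      ring
  have hdet : A.det = 0 := by
    by_contra hne
    obtain ⟨k, hk⟩ := exists_nat_gt (1 / |A.det|)
    have hd : 0 < |A.det| := abs_pos.2 hne
    have h1 := (h k)
    have h2 : Tendsto (fun i : ℕ => (((k : ℝ) + 1) ^ (2 * i) • A ^ (2 * i)).det) atTop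
        (𝓝 (0 : Matrix (Fin 2) (Fin 2) ℝ).det) :=
      (continuous_id.matrix_det.tendsto (0 : Matrix (Fin 2) (Fin 2) ℝ)).comp h1
    have h3 : (0 : Matrix (Fin 2) (Fin 2) ℝ).det = 0 := by simp
    rw [h3] at h2
    have h4 : ∀ i : ℕ, 1 ≤ |(((k : ℝ) + 1) ^ (2 * i) • A ^ (2 * i)).det| := by
      intro i
      have e1 : (((k : ℝ) + 1) ^ (2 * i) • A ^ (2 * i)).det = (((k : ℝ) + 1) ^ 2 * A.det) ^ (2 * i) := by
        rw [Matrix.det_smul, Matrix.det_pow, Fintype.card_fin, mul_pow, ← pow_mul, ← pow_mul]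
        ring
      rw [e1, abs_pow]
      apply one_le_pow₀
      rw [abs_mul, abs_of_pos (by positivity : (0 : ℝ) < ((k : ℝ) + 1) ^ 2)]
      rw [div_lt_iff₀ hd] at hk
      have : (k : ℝ) ≤ ((k : ℝ) + 1) ^ 2 := by nlinarith [Nat.cast_nonneg (α := ℝ) k]
      nlinarith
    have h5 := h2.abs
    rw [abs_zero] at h5
    have h6 := ge_of_tendsto' h5 h4
    linarith
  rw [hdet, zero_smul, sub_zero] at hCH
  have hpow : ∀ i : ℕ, A ^ (i + 1) = A.trace ^ i • A := by
    intro i
    induction i with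
    | zero => simp
    | succ i ih =>
      rw [pow_succ, ih, smul_mul_assoc, ← pow_two, hCH, smul_smul, pow_succ]
  by_cases ht : A.trace = 0
  · rw [hCH, ht, zero_smul]
  · exfalso
    obtain ⟨k, hk⟩ := exists_nat_gt (1 / |A.trace|)
    have hd : 0 < |A.trace| := abs_pos.2 ht
    rw [div_lt_iff₀ hd] at hk
    have h1 := ((continuous_id.matrix_trace.tendsto (0 : Matrix (Fin 2) (Fin 2) ℝ)).comp
      ((h k).comp (tendsto_add_atTop_nat 1))).abs
    simp only [id, Matrix.trace_zero, abs_zero] at h1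
    have h4 : ∀ i : ℕ, 1 ≤ |(((k : ℝ) + 1) ^ (2 * (i + 1)) • A ^ (2 * (i + 1))).trace| := by
      intro i
      have e1 : (((k : ℝ) + 1) ^ (2 * (i + 1)) • A ^ (2 * (i + 1))).trace =
          (((k : ℝ) + 1) * A.trace) ^ (2 * (i + 1)) := by
        have : 2 * (i + 1) = (2 * i + 1) + 1 := by ring
        rw [this, hpow, Matrix.trace_smul, Matrix.trace_smul, smul_eq_mul, smul_eq_mul, mul_pow,
          pow_succ A.trace]
        ring
      rw [e1, abs_pow]
      apply one_le_pow₀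
      rw [abs_mul, abs_of_pos (by positivity : (0 : ℝ) < (k : ℝ) + 1)]
      nlinarith
    have h6 := ge_of_tendsto' h1 h4
    linarith

/-- The value of the extension at a matrix of square zero. -/
theorem ext_sq_zero {n : ℕ} {κ : ℝ} (hκ : 0 < κ) {A M : Matrix (Fin n) (Fin n) ℝ} (hA : A ^ 2 = 0)
    (h : Tendsto (fun N : ℕ => ∑ j ∈ Finset.range N,
      (iteratedDeriv j (gg κ) 0 / j.factorial) • A ^ j) atTop (𝓝 M)) : M = 1 + A := by
  have h1 : ∀ N : ℕ, ∑ j ∈ Finset.range (N + 2),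
      (iteratedDeriv j (gg κ) 0 / j.factorial) • A ^ j = 1 + A := by
    intro N
    induction N with
    | zero =>
      rw [Finset.sum_range_succ, Finset.sum_range_succ, Finset.sum_range_zero, gg_coef hκ, gg_coef hκ]
      simp [cc]
    | succ N ih =>
      rw [Finset.sum_range_succ, ih]
      have : A ^ (N + 2) = 0 := by rw [pow_add, hA, mul_zero]
      rw [this, smul_zero, add_zero]
  have h2 := h.comp (tendsto_add_atTop_nat 2)
  have h3 : Tendsto (fun _ : ℕ => (1 : Matrix (Fin n) (Fin n) ℝ) + A) atTop (𝓝 M) :=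
    h2.congr fun N => h1 N
  exact tendsto_nhds_unique h3 tendsto_const_nhds

end Pool.Agent.Helper433_LM
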